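import Pool.Agent.helper99.ZP.Spec

/-! # zr: row DSM -/

set_option autoImplicit false

open Finset
open Pool.Agent.helper32.Cant
open Pool.Agent.GA (nrm chi ch St sg flp Psi rc ph pot rpot far nc gf ncs gfs good mj om pick pat et kap mult)
open scoped ENNReal

namespace Pool.Agent.ZP

open Pool.Agent.ZR



theorem DSM_ind_nonneg (p : Prop) : 0 ≤ ind p := by
  unfold ind; split_ifs <;> norm_num

theorem DSM_ind_le (p : Prop) : ind p ≤ 1 := by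
  unfold ind; split_ifs <;> norm_num

theorem DSM_wt_pos (gCHI : Pool.Agent.GA.CHI_stmt) {n : ℕ} {X : Type} [Fintype X] (c : Fam n X) (κ : ℕ) (p : St n) (x : X) :
    0 < wm c κ p x := by
  unfold wm
  exact mul_pos (c.pos x) ((gCHI (3 ^ (2 * n)) _ (by positivity)).1 _).1

theorem DSM_NN_pos (gCHI : Pool.Agent.GA.CHI_stmt) {n : ℕ} {X : Type} [Fintype X] [Nonempty X] (c : Fam n X) (κ : ℕ) (p : St n) : 0 < NM c κ p := by
  unfold NM
  exact Finset.sum_pos (fun x _ => DSM_wt_pos gCHI c κ p x) Finset.univ_nonempty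

theorem DSM_VM_le (gCHR : Pool.Agent.GA.CHR_stmt) (gCHI : Pool.Agent.GA.CHI_stmt) {n : ℕ} {X : Type} [Fintype X] (c : Fam n X) (κ : ℕ)
    (ξ : ZMod (3 ^ (2 * n))) (p : St n) : ‖VM c κ ξ p univ‖ ≤ NM c κ p := by
  unfold VM NM
  refine (norm_sum_le _ _).trans (Finset.sum_le_sum fun x _ => ?_)
  rw [norm_mul, (gCHR (3 ^ (2 * n))).1, mul_one, Complex.norm_real, Real.norm_eq_abs,
    abs_of_pos (DSM_wt_pos gCHI c κ p x)]

theorem DSM_VM_neg (gCHR : Pool.Agent.GA.CHR_stmt) {n : ℕ} {X : Type} [Fintype X] (c : Fam n X) (κ : ℕ)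
    (ξ : ZMod (3 ^ (2 * n))) (p : St n) : ‖VM c κ (-ξ) p univ‖ = ‖VM c κ ξ p univ‖ := by
  have h : VM c κ (-ξ) p univ = (starRingEnd ℂ) (VM c κ ξ p univ) := by
    unfold VM
    rw [map_sum]
    refine Finset.sum_congr rfl fun x _ => ?_
    rw [map_mul, Complex.conj_ofReal, (gCHR (3 ^ (2 * n))).2.2.2]
  rw [h, RCLike.norm_conj]

theorem DSM_et_nonneg (n g : ℕ) (y U K : ℝ) (hK : 2 ≤ K) : 0 ≤ et n g y U K := by
  unfold et
  positivity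

/-- the normalised sum over the heavy states -/
noncomputable def DSM_G {n : ℕ} {X : Type} [Fintype X] (c : Fam n X) (κ : ℕ) (y ω : ℝ) (ξ : ZMod (3 ^ (2 * n))) : ℝ :=
  ∑ p, ind (hm c κ y ω p) * (‖VM c κ ξ p univ‖ ^ 2 / NM c κ p)

theorem DSM_G_neg (gCHR : Pool.Agent.GA.CHR_stmt) {n : ℕ} {X : Type} [Fintype X] (c : Fam n X) (κ : ℕ) (y ω : ℝ)
    (ξ : ZMod (3 ^ (2 * n))) : DSM_G c κ y ω (-ξ) = DSM_G c κ y ω ξ := by
  unfold DSM_G
  refine Finset.sum_congr rfl fun p _ => ?_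
  rw [DSM_VM_neg gCHR]

theorem DSM_G_abs (gCHR : Pool.Agent.GA.CHR_stmt) {n : ℕ} {X : Type} [Fintype X] (c : Fam n X) (κ : ℕ) (y ω : ℝ)
    (ξ : ZMod (3 ^ (2 * n))) :
    DSM_G c κ y ω ξ = DSM_G c κ y ω ((ξ.valMinAbs.natAbs : ℕ) : ZMod (3 ^ (2 * n))) := by
  have h1 : ((ξ.valMinAbs : ℤ) : ZMod (3 ^ (2 * n))) = ξ := ZMod.coe_valMinAbs ξ
  rcases Int.natAbs_eq ξ.valMinAbs with h | h
  · have h2 : ((ξ.valMinAbs.natAbs : ℕ) : ZMod (3 ^ (2 * n))) = ξ := by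
      rw [← Int.cast_natCast, ← h, h1]
    rw [h2]
  · have h2 : ((ξ.valMinAbs.natAbs : ℕ) : ZMod (3 ^ (2 * n))) = -ξ := by
      rw [← Int.cast_natCast]
      have h3 : ((ξ.valMinAbs.natAbs : ℕ) : ℤ) = -ξ.valMinAbs := by omega
      rw [h3, Int.cast_neg, h1]
    rw [h2, DSM_G_neg gCHR]

theorem DSM_nrm {M : ℕ} (ξ : ZMod M) : nrm ξ = (ξ.valMinAbs.natAbs : ℝ) := by
  unfold nrm
  rw [Nat.cast_natAbs, Int.cast_abs]

theorem DSM (gCHR : Pool.Agent.GA.CHR_stmt) (gCHI : Pool.Agent.GA.CHI_stmt) (hMPP : Pool.Agent.ZP.MPP_stmt) (gPSV : Pool.Agent.GA.PSV_stmt) (hSMU : Pool.Agent.ZR.SMU_stmt) : Pool.Agent.ZP.DSM_stmt := by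
  intro n h X _ c κ k g T x₁ y ω U K hn hκh hκk hkn hg hT1 hT2 hK hx1 hx2 hx3 hWin
  rcases isEmpty_or_nonempty X with hX | hX
  · have e1 : ∑ p, ind (hm c κ y ω p) * ((∑ v, DM c κ k p v ^ 2) / NM c κ p) = 0 := by
      refine Finset.sum_eq_zero fun p _ => ?_
      simp [DM]
    have e2 : ∑ p, NM c κ p = 0 := by
      refine Finset.sum_eq_zero fun p _ => ?_
      simp [NM]
    rw [e1, e2, mul_zero]
  set S : ℝ := ∑ p, NM c κ p with hS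
  have hNpos : ∀ p, 0 < NM c κ p := fun p => DSM_NN_pos gCHI c κ p
  have hSpos : 0 < S := Finset.sum_pos (fun p _ => hNpos p) Finset.univ_nonempty
  set F : ZMod (3 ^ (2 * n)) → ℝ := fun ξ => DSM_G c κ y ω ξ / S with hF
  have hG0 : ∀ ξ, 0 ≤ DSM_G c κ y ω ξ := by
    intro ξ
    unfold DSM_G
    exact Finset.sum_nonneg fun p _ => mul_nonneg (DSM_ind_nonneg _)
      (div_nonneg (sq_nonneg _) (hNpos p).le)
  have hG1 : ∀ ξ, DSM_G c κ y ω ξ ≤ S := by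
    intro ξ
    unfold DSM_G
    refine Finset.sum_le_sum fun p _ => ?_
    have h1 : ‖VM c κ ξ p univ‖ ^ 2 / NM c κ p ≤ NM c κ p := by
      rw [div_le_iff₀ (hNpos p), ← sq]
      exact pow_le_pow_left₀ (norm_nonneg _) (DSM_VM_le gCHR gCHI c κ ξ p) 2
    calc ind (hm c κ y ω p) * (‖VM c κ ξ p univ‖ ^ 2 / NM c κ p)
        ≤ 1 * (‖VM c κ ξ p univ‖ ^ 2 / NM c κ p) :=
          mul_le_mul_of_nonneg_right (DSM_ind_le _) (div_nonneg (sq_nonneg _) (hNpos p).le)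
      _ ≤ NM c κ p := by rw [one_mul]; exact h1
  have hF01 : ∀ ξ, 0 ≤ F ξ ∧ F ξ ≤ 1 := fun ξ =>
    ⟨div_nonneg (hG0 ξ) hSpos.le, (div_le_one hSpos).2 (hG1 ξ)⟩
  have hFm : ∀ ξ, 3 * h * 3 ^ κ ≤ nrm ξ → nrm ξ ≤ x₁ →
      F ξ ≤ 18 * (8 * (h : ℝ) ^ 2 * 9 ^ κ / nrm ξ ^ 2 + et h g y U K) := by
    intro ξ h1 h2
    rw [DSM_nrm] at h1 h2 ⊢
    have h1' : 3 * h * 3 ^ κ ≤ ξ.valMinAbs.natAbs := by exact_mod_cast h1
    have h2' : ξ.valMinAbs.natAbs ≤ x₁ := by exact_mod_cast h2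
    have h3 := hMPP n h X c κ g T ξ.valMinAbs.natAbs y ω U K hn hκh (by omega) hg hT1 hT2 hK hWin h1'
      (by omega) (by omega)
    rw [hF]
    simp only
    rw [div_le_iff₀ hSpos, DSM_G_abs gCHR]
    exact h3
  have hmain := hSMU n h κ k x₁ (et h g y U K) F hn hκk (by omega) (DSM_et_nonneg h g y U K hK) hx1
    hF01 hFm
  have hDD : ∀ p, ∑ v, DM c κ k p v ^ 2 =
      (∑ ξ, ‖VM c κ ξ p univ‖ ^ 2 * mult (3 ^ (2 * n - (k + 1))) ξ) / (3 : ℝ) ^ (2 * n) := by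
    intro p
    have h := gPSV X (3 ^ (2 * n)) (3 ^ (2 * n - (k + 1))) (wm c κ p) (um c p)
      (Nat.pow_le_pow_right (by norm_num) (by omega))
    have e : (((3 ^ (2 * n) : ℕ)) : ℝ) = (3 : ℝ) ^ (2 * n) := by push_cast; ring
    rw [e] at h
    exact h
  have hLHS : ∑ p, ind (hm c κ y ω p) * ((∑ v, DM c κ k p v ^ 2) / NM c κ p) =
      S / (3 : ℝ) ^ (2 * n) * ∑ ξ, mult (3 ^ (2 * n - (k + 1))) ξ * F ξ := by
    have e1 : ∀ p, ind (hm c κ y ω p) * ((∑ v, DM c κ k p v ^ 2) / NM c κ p) =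
        ∑ ξ, mult (3 ^ (2 * n - (k + 1))) ξ * (ind (hm c κ y ω p) *
          (‖VM c κ ξ p univ‖ ^ 2 / NM c κ p)) / (3 : ℝ) ^ (2 * n) := by
      intro p
      rw [hDD p, div_div, Finset.sum_div, Finset.mul_sum]
      refine Finset.sum_congr rfl fun ξ _ => ?_
      have := (hNpos p).ne'
      field_simp
    rw [Finset.sum_congr rfl fun p _ => e1 p, Finset.sum_comm, Finset.mul_sum]
    refine Finset.sum_congr rfl fun ξ _ => ?_
    rw [← Finset.sum_div, ← Finset.mul_sum]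
    rw [hF]
    simp only
    unfold DSM_G
    field_simp
  rw [hLHS]
  have h3 : S / (3 : ℝ) ^ (2 * n) * ∑ ξ, mult (3 ^ (2 * n - (k + 1))) ξ * F ξ ≤
      S / (3 : ℝ) ^ (2 * n) * (((3 : ℝ) ^ (2 * n - (k + 1))) ^ 2 * 3 ^ κ *
        kap h (k - κ) (x₁ / 3 ^ κ) (et h g y U K)) :=
    mul_le_mul_of_nonneg_left hmain (by positivity)
  refine h3.trans (le_of_eq ?_)
  ring

end Pool.Agent.ZP
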