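import Pool.Agent.helper99.ZP.Spec

/-! # zp: row FN2 -/

set_option autoImplicit false

open Finset
open Pool.Agent.helper32.Cant
open Pool.Agent.GA (nrm chi ch St sg flp Psi rc ph pot rpot far nc gf ncs gfs good mj om pick pat et kap mult)
open Pool.Agent.ZR
open scoped ENNReal

namespace Pool.Agent.ZP

theorem FN2_mono (ψ : ℕ → ℝ≥0∞) {E E' : Set (ℝ × ℝ)} (h : E ⊆ E') : cont2 ψ E ≤ cont2 ψ E' := by
  unfold cont2
  refine le_iInf₂ fun A hA => ?_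
  exact iInf₂_le A fun s hs => hA s (h hs)

theorem FN2_Es_mono (U : Set ℝ) (lam x : ℝ) {δ δ' : ℝ} (h : δ' ≤ δ) : Es U lam δ x ⊆ Es U lam δ' x :=
  fun _ hs => ⟨hs.1, hs.2.1, fun c hc y hy => hs.2.2 c hc y (hy.trans_le h)⟩

theorem FN2_sub {B U : Set ℝ} (hBU : B ⊆ U) (hU : IsOpen U) (o lam : ℝ) :
    Pb B o lam ⊆ ⋃ i : ℕ, Ps U o lam (1 / ((i : ℝ) + 1)) := by
  rintro ⟨u, s⟩ hs
  obtain ⟨hu0, hu1, h0, h1, h2⟩ := hs
  have hK : IsCompact ((fun c : ℝ => (o + lam * u) + lam * (1 + s) * (c - 1 / 2)) '' cantorSet) :=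
    isCompact_cantorSet.image (by fun_prop)
  have hKU : ((fun c : ℝ => (o + lam * u) + lam * (1 + s) * (c - 1 / 2)) '' cantorSet) ⊆ U := by
    rintro _ ⟨c, hc, rfl⟩
    exact hBU (h2 c hc)
  obtain ⟨δ, hδ, hδU⟩ := hK.exists_thickening_subset_open hU hKU
  obtain ⟨i, hi⟩ := exists_nat_one_div_lt hδ
  refine Set.mem_iUnion.2 ⟨i, hu0, hu1, h0, h1, fun c hc y hy => hδU ?_⟩
  rw [Metric.mem_thickening_iff]
  refine ⟨_, ⟨c, hc, rfl⟩, ?_⟩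
  rw [Real.dist_eq]
  exact hy.trans hi

theorem FN2 (hTEL : Pool.Agent.ZP.TEL_stmt) (hIN2 : IN2_stmt) (hDJ1 : DJ1_stmt) (hDI2 : Pool.Agent.ZR.DI2_stmt) : FN2_stmt := by
  intro B hB o lam hlam
  by_contra hne
  obtain ⟨s₀, hs₀, hcont⟩ : ∃ s₀ : ℝ, 0 < s₀ ∧ ENNReal.ofReal s₀ < cont2 (psF (10 ^ 14)) (Pb B o lam) := by
    obtain ⟨r, hr0, hr1⟩ := ENNReal.lt_iff_exists_nnreal_btwn.1 (pos_iff_ne_zero.2 hne)
    refine ⟨r, by exact_mod_cast hr0, ?_⟩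
    rw [ENNReal.ofReal_coe_nnreal]
    exact hr1
  obtain ⟨k₀, hk₀⟩ := hTEL s₀ 9 hs₀ (by norm_num)
  have hlt : MeasureTheory.volume B < ENNReal.ofReal (lam / (4 * 3 ^ k₀)) := by
    rw [hB]
    exact ENNReal.ofReal_pos.2 (by positivity)
  obtain ⟨U, hBU, hUo, hUv⟩ := B.exists_isOpen_lt_of_lt _ hlt
  have hmonE : ∀ i : ℕ, Ps U o lam (1 / ((i : ℝ) + 1)) ⊆ Ps U o lam (1 / (((i + 1 : ℕ) : ℝ) + 1)) := by
    intro i p hp
    refine ⟨hp.1, hp.2.1, FN2_Es_mono U lam _ ?_ hp.2.2⟩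
    push_cast
    exact one_div_le_one_div_of_le (by positivity) (by linarith)
  obtain ⟨i, hi⟩ : ∃ i : ℕ, ENNReal.ofReal s₀ < cont2 (psF (10 ^ 14)) (Ps U o lam (1 / ((i : ℝ) + 1))) := by
    by_contra hc
    have h1 : ∀ i : ℕ, cont2 (psF (10 ^ 14)) (Ps U o lam (1 / ((i : ℝ) + 1))) ≤ ENNReal.ofReal s₀ :=
      fun i => not_lt.1 fun h => hc ⟨i, h⟩
    have h2 := hIN2 (psF (10 ^ 14)) (fun i => Ps U o lam (1 / ((i : ℝ) + 1))) (ENNReal.ofReal s₀)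
      hmonE h1
    exact lt_irrefl _ (hcont.trans_le ((FN2_mono _ (FN2_sub hBU hUo o lam)).trans h2))
  obtain ⟨δ, hδ⟩ : ∃ δ : ℝ, δ = 1 / ((i : ℝ) + 1) := ⟨_, rfl⟩
  have hδ0 : 0 < δ := by rw [hδ]; positivity
  -- the levels
  obtain ⟨k', hk'⟩ : ∃ k' : ℕ, lam / 3 ^ k' < δ / 2 := by
    obtain ⟨k', hk'⟩ := pow_unbounded_of_one_lt (2 * lam / δ) (show (1 : ℝ) < 3 by norm_num)
    refine ⟨k', ?_⟩
    rw [div_lt_iff₀ hδ0] at hk'
    rw [div_lt_iff₀ (by positivity)]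
    linarith
  obtain ⟨k₁, hk₁⟩ : ∃ k₁ : ℕ, k₁ = max k₀ k' := ⟨_, rfl⟩
  have hk01 : k₀ ≤ k₁ := by rw [hk₁]; exact le_max_left _ _
  have hk'1 : k' ≤ k₁ := by rw [hk₁]; exact le_max_right _ _
  have hlk₁ : lam / 3 ^ k₁ < δ / 2 := by
    refine lt_of_le_of_lt ?_ hk'
    exact div_le_div_of_nonneg_left hlam.le (by positivity) (pow_le_pow_right₀ (by norm_num) hk'1)
  obtain ⟨n, hn⟩ : ∃ n : ℕ, n = k₁ + 61 * Nat.clog 3 k₁ + 2 := ⟨_, rfl⟩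
  have hln : 4 * lam / 3 ^ n < δ / 2 := by
    refine lt_of_le_of_lt ?_ hlk₁
    have h1 : (3 : ℝ) ^ (k₁ + 2) ≤ 3 ^ n := pow_le_pow_right₀ (by norm_num) (by omega)
    calc 4 * lam / 3 ^ n ≤ 4 * lam / 3 ^ (k₁ + 2) :=
          div_le_div_of_nonneg_left (by positivity) (by positivity) h1
      _ ≤ lam / 3 ^ k₁ := by
          rw [div_le_div_iff₀ (by positivity) (by positivity), pow_add]
          have : 0 < lam * 3 ^ k₁ := by positivity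
          nlinarith
  obtain ⟨X, hX, c, hc1, hc2, hc3⟩ := hDJ1 (10 ^ 14) (by norm_num) U o lam δ s₀ hlam hs₀
    (by rw [hδ]; exact hi) n
  obtain ⟨G, hG1, hG2⟩ := hDI2 n k₁ X c U o lam δ hlam (by omega) (by linarith) hc3
  have h4 := hk₀ n k₁ hk01 (by omega) X c hc1 hc2 G hG1
  have h5 : lam / (4 * 3 ^ k₀) ≤ lam * G.card / 3 ^ (2 * n) := by
    have e : (3 : ℝ) ^ (2 * n) = 3 ^ (2 * n - k₀) * 3 ^ k₀ := by
      rw [← pow_add]
      congr 1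
      omega
    rw [div_le_div_iff₀ (by positivity) (by positivity), e]
    have h6 : 0 < (3 : ℝ) ^ k₀ := by positivity
    have h7 : 0 < (3 : ℝ) ^ (2 * n - k₀) := by positivity
    calc lam * (3 ^ (2 * n - k₀) * 3 ^ k₀) ≤ lam * ((4 * G.card) * 3 ^ k₀) := by
          apply mul_le_mul_of_nonneg_left _ hlam.le
          apply mul_le_mul_of_nonneg_right _ h6.le
          linarith
      _ = lam * G.card * (4 * 3 ^ k₀) := by ring
  have h8 := (ENNReal.ofReal_le_ofReal h5).trans hG2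
  exact absurd (h8.trans_lt hUv) (lt_irrefl _)

end Pool.Agent.ZP
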