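import Pool.Agent.helper99.ZP.Spec

/-! # zp: row IN2, the increasing sets lemma for the triadic content -/

set_option autoImplicit false

open Finset
open Pool.Agent.helper32.Cant
open Pool.Agent.GA (nrm chi ch St sg flp Psi rc ph pot rpot far nc gf ncs gfs good mj om pick pat et kap mult)
open scoped ENNReal

open Pool.Agent.ZR

namespace Pool.Agent.ZP

/-- `c` is contained in `c'` -/
def IN2_le (c c' : ℕ × ℤ × ℤ) : Prop := c'.1 ≤ c.1 ∧ c.2.1 / 3 ^ (c.1 - c'.1) = c'.2.1 ∧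
  c.2.2 / 3 ^ (c.1 - c'.1) = c'.2.2

theorem IN2_refl (c : ℕ × ℤ × ℤ) : IN2_le c c := ⟨le_rfl, by simp, by simp⟩

theorem IN2_trans {a b c : ℕ × ℤ × ℤ} (h1 : IN2_le a b) (h2 : IN2_le b c) : IN2_le a c := by
  have e : a.1 - c.1 = (a.1 - b.1) + (b.1 - c.1) := by
    have := h1.1
    have := h2.1
    omega
  refine ⟨h2.1.trans h1.1, ?_, ?_⟩
  · rw [e, pow_add, ← Int.ediv_ediv_of_nonneg (by positivity), h1.2.1, h2.2.1]
  · rw [e, pow_add, ← Int.ediv_ediv_of_nonneg (by positivity), h1.2.2, h2.2.2]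

theorem IN2_antisymm {a b : ℕ × ℤ × ℤ} (h1 : IN2_le a b) (h : b.1 = a.1) : b = a := by
  have h2 := h1.2.1
  have h3 := h1.2.2
  rw [h, Nat.sub_self, pow_zero, Int.ediv_one] at h2 h3
  exact Prod.ext h (Prod.ext h2.symm h3.symm)

theorem IN2_fl {i j : ℕ} {p q : ℤ} {s : ℝ} (h1 : ⌊(3 : ℝ) ^ i * s⌋ = p)
    (h2 : ⌊(3 : ℝ) ^ j * s⌋ = q) (h : j ≤ i) : p / 3 ^ (i - j) = q := by
  have e := Int.floor_div_natCast ((3 : ℝ) ^ i * s) (3 ^ (i - j))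
  rw [h1] at e
  push_cast at e
  rw [← e, ← h2]
  congr 1
  rw [div_eq_iff (by positivity)]
  have : (3 : ℝ) ^ i = 3 ^ j * 3 ^ (i - j) := by
    rw [← pow_add]
    congr 1
    omega
  rw [this]
  ring

/-- the point `s` is in the square `c` -/
def IN2_in (c : ℕ × ℤ × ℤ) (s : ℝ × ℝ) : Prop :=
  ⌊(3 : ℝ) ^ c.1 * s.1⌋ = c.2.1 ∧ ⌊(3 : ℝ) ^ c.1 * s.2⌋ = c.2.2

theorem IN2_floor {c c' : ℕ × ℤ × ℤ} {s : ℝ × ℝ} (h1 : IN2_in c s)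
    (h2 : IN2_in c' s) (h : c'.1 ≤ c.1) : IN2_le c c' :=
  ⟨h, IN2_fl h1.1 h2.1 h, IN2_fl h1.2 h2.2 h⟩

theorem IN2_mem {c c' : ℕ × ℤ × ℤ} {s : ℝ × ℝ} (h1 : IN2_in c s) (h : IN2_le c c') :
    IN2_in c' s := by
  have h3 := IN2_fl (j := c'.1) h1.1 rfl h.1
  have h4 := IN2_fl (j := c'.1) h1.2 rfl h.1
  exact ⟨by rw [← h3, h.2.1], by rw [← h4, h.2.2]⟩

/-- the maximal elements -/
def IN2_Mx (G : Set (ℕ × ℤ × ℤ)) : Set (ℕ × ℤ × ℤ) := {c | c ∈ G ∧ ∀ c' ∈ G, IN2_le c c' → c' = c}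

theorem IN2_ex (G : Set (ℕ × ℤ × ℤ)) {c : ℕ × ℤ × ℤ} (hc : c ∈ G) : ∃ a ∈ IN2_Mx G, IN2_le c a := by
  classical
  have hex : ∃ j : ℕ, ∃ a ∈ G, IN2_le c a ∧ a.1 = j := ⟨c.1, c, hc, IN2_refl c, rfl⟩
  obtain ⟨a, haG, hca, haj⟩ := Nat.find_spec hex
  refine ⟨a, ⟨haG, fun c' hc' hac => ?_⟩, hca⟩
  have h1 := Nat.find_min' hex ⟨c', hc', IN2_trans hca hac, rfl⟩
  exact IN2_antisymm hac (le_antisymm hac.1 (by omega))

theorem IN2_cov {G : Set (ℕ × ℤ × ℤ)} {E : Set (ℝ × ℝ)} (h : Cov2 G E) : Cov2 (IN2_Mx G) E := by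
  intro s hs
  obtain ⟨c, hc, hcs⟩ := h s hs
  obtain ⟨a, ha, hca⟩ := IN2_ex G hc
  exact ⟨a, ha, IN2_mem hcs hca⟩

theorem IN2_add (ψ : ℕ → ℝ≥0∞) {A B : Set (ℕ × ℤ × ℤ)} (h : A ⊆ B) :
    cst2 ψ B = cst2 ψ (B \ A) + cst2 ψ A := by
  have h1 := Summable.tsum_union_disjoint (f := fun c : ℕ × ℤ × ℤ => ψ c.1) (s := B \ A) (t := A)
    disjoint_sdiff_self_left ENNReal.summable ENNReal.summable
  rw [Set.sdiff_union_of_subset h] at h1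
  exact h1

theorem IN2_mono (ψ : ℕ → ℝ≥0∞) {A B : Set (ℕ × ℤ × ℤ)} (h : A ⊆ B) : cst2 ψ A ≤ cst2 ψ B :=
  ENNReal.tsum_mono_subtype (fun c : ℕ × ℤ × ℤ => ψ c.1) h

theorem IN2_union (ψ : ℕ → ℝ≥0∞) (A B : Set (ℕ × ℤ × ℤ)) : cst2 ψ (A ∪ B) ≤ cst2 ψ A + cst2 ψ B :=
  ENNReal.tsum_union_le (fun c : ℕ × ℤ × ℤ => ψ c.1) A B

theorem IN2_cont_le (ψ : ℕ → ℝ≥0∞) {A : Set (ℕ × ℤ × ℤ)} {E : Set (ℝ × ℝ)} (h : Cov2 A E) :
    cont2 ψ E ≤ cst2 ψ A := iInf₂_le A h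

/-- the step -/
theorem IN2_step (ψ : ℕ → ℝ≥0∞) {G A : Set (ℕ × ℤ × ℤ)} {E E' : Set (ℝ × ℝ)} (hE : E ⊆ E')
    (hG : Cov2 G E) (hA : Cov2 A E') {ε : ℝ≥0∞} (hc : cst2 ψ (IN2_Mx G) ≠ ⊤)
    (h : cst2 ψ (IN2_Mx G) ≤ cont2 ψ E + ε) :
    cst2 ψ (IN2_Mx (G ∪ A)) ≤ cst2 ψ A + ε := by
  set H := IN2_Mx G with hH
  set P : Set (ℕ × ℤ × ℤ) := {c | c ∈ H ∧ ∀ c' ∈ A, IN2_le c c' → c' = c} with hP
  set D : Set (ℕ × ℤ × ℤ) := {c' | c' ∈ A ∧ ∃ c ∈ P, IN2_le c' c} with hD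
  have hPH : P ⊆ H := fun c hc => hc.1
  have hDA : D ⊆ A := fun c hc => hc.1
  have h1 : Cov2 ((H \ P) ∪ D) E := by
    intro s hs
    obtain ⟨c, hcH, hcs⟩ := IN2_cov hG s hs
    by_cases hcP : c ∈ P
    · obtain ⟨c', hc', hcs'⟩ := hA s (hE hs)
      refine ⟨c', Or.inr ⟨hc', c, hcP, ?_⟩, hcs'⟩
      rcases le_total c.1 c'.1 with h2 | h2
      · exact IN2_floor hcs' hcs h2
      · have h3 := IN2_floor hcs hcs' h2
        rw [hcP.2 c' hc' h3]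
        exact IN2_refl c
    · exact ⟨c, Or.inl ⟨hcH, hcP⟩, hcs⟩
  have h2 : cont2 ψ E ≤ cst2 ψ (H \ P) + cst2 ψ D := (IN2_cont_le ψ h1).trans (IN2_union ψ _ _)
  have h3 : cst2 ψ H = cst2 ψ (H \ P) + cst2 ψ P := IN2_add ψ hPH
  have h4 : cst2 ψ (H \ P) ≠ ⊤ := ne_top_of_le_ne_top hc (IN2_mono ψ Set.sdiff_subset)
  have h5 : cst2 ψ P ≤ cst2 ψ D + ε := by
    have h6 : cst2 ψ (H \ P) + cst2 ψ P ≤ cst2 ψ (H \ P) + (cst2 ψ D + ε) := by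
      rw [← h3]
      refine h.trans ?_
      rw [← add_assoc]
      exact add_le_add h2 le_rfl
    exact (ENNReal.add_le_add_iff_left h4).1 h6
  have h6 : IN2_Mx (G ∪ A) ⊆ P ∪ (A \ D) := by
    intro c hc
    by_cases hcP : c ∈ P
    · exact Or.inl hcP
    · right
      have hcA : c ∈ A := by
        rcases hc.1 with hcG | hcA
        · exact absurd ⟨⟨hcG, fun c' hc' hle => hc.2 c' (Or.inl hc') hle⟩,
            fun c' hc' hle => hc.2 c' (Or.inr hc') hle⟩ hcP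
        · exact hcA
      refine ⟨hcA, fun hcD => ?_⟩
      obtain ⟨-, a, haP, hle⟩ := hcD
      have := hc.2 a (Or.inl haP.1.1) hle
      exact hcP (this ▸ haP)
  calc cst2 ψ (IN2_Mx (G ∪ A)) ≤ cst2 ψ (P ∪ (A \ D)) := IN2_mono ψ h6
    _ ≤ cst2 ψ P + cst2 ψ (A \ D) := IN2_union ψ _ _
    _ ≤ (cst2 ψ D + ε) + cst2 ψ (A \ D) := add_le_add h5 le_rfl
    _ = (cst2 ψ (A \ D) + cst2 ψ D) + ε := by ring
    _ = cst2 ψ A + ε := by rw [← IN2_add ψ hDA]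

/-- the union of the first covers -/
def IN2_G (A : ℕ → Set (ℕ × ℤ × ℤ)) : ℕ → Set (ℕ × ℤ × ℤ)
  | 0 => A 0
  | i + 1 => IN2_G A i ∪ A (i + 1)

theorem IN2_sub (A : ℕ → Set (ℕ × ℤ × ℤ)) (i : ℕ) : A i ⊆ IN2_G A i := by
  cases i with
  | zero => exact le_rfl
  | succ i => exact fun c hc => Or.inr hc

theorem IN2_Gmono (A : ℕ → Set (ℕ × ℤ × ℤ)) : Monotone (IN2_G A) :=
  monotone_nat_of_le_succ fun _ => fun _ hc => Or.inl hc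

theorem IN2 : IN2_stmt := by
  classical
  intro ψ F s hF hs
  rcases eq_or_ne s ⊤ with hst | hst
  · rw [hst]; exact le_top
  refine ENNReal.le_of_forall_pos_le_add fun ε hε _ => ?_
  obtain ⟨δ, hδ, hδs⟩ := ENNReal.exists_pos_sum_of_countable' (ENNReal.coe_pos.2 hε).ne' ℕ
  have hex : ∀ i, ∃ A : Set (ℕ × ℤ × ℤ), Cov2 A (F i) ∧ cst2 ψ A ≤ cont2 ψ (F i) + δ i := by
    intro i
    have h1 : cont2 ψ (F i) < cont2 ψ (F i) + δ i :=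
      ENNReal.lt_add_right (ne_top_of_le_ne_top hst (hs i)) (hδ i).ne'
    have h2 : ∃ A : Set (ℕ × ℤ × ℤ), ∃ _ : Cov2 A (F i), cst2 ψ A < cont2 ψ (F i) + δ i := by
      have h3 : (⨅ (A : Set (ℕ × ℤ × ℤ)) (_ : Cov2 A (F i)), cst2 ψ A) < cont2 ψ (F i) + δ i := h1
      rw [iInf_lt_iff] at h3
      obtain ⟨A, hA⟩ := h3
      rw [iInf_lt_iff] at hA
      obtain ⟨hc, hA⟩ := hA
      exact ⟨A, hc, hA⟩
    obtain ⟨A, hc, hA⟩ := h2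
    exact ⟨A, hc, hA.le⟩
  choose A hA1 hA2 using hex
  have hcovG : ∀ i, Cov2 (IN2_G A i) (F i) := by
    intro i y hy
    obtain ⟨c, hc, hcy⟩ := hA1 i y hy
    exact ⟨c, IN2_sub A i hc, hcy⟩
  have hδt : ∀ i, ∑ j ∈ range i, δ j ≤ ε := fun i =>
    (ENNReal.sum_le_tsum _).trans hδs.le
  have hmain : ∀ i, cst2 ψ (IN2_Mx (IN2_G A i)) ≤ cont2 ψ (F i) + ∑ j ∈ range (i + 1), δ j := by
    intro i
    induction i with
    | zero =>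
      rw [Finset.sum_range_one]
      exact (IN2_mono ψ (fun c hc => hc.1)).trans (hA2 0)
    | succ i ih =>
      have h1 := IN2_step ψ (G := IN2_G A i) (A := A (i + 1)) (E := F i) (E' := F (i + 1)) (hF i)
        (hcovG i) (hA1 (i + 1)) (ε := ∑ j ∈ range (i + 1), δ j)
        (ne_top_of_le_ne_top (ENNReal.add_ne_top.2 ⟨ne_top_of_le_ne_top hst (hs i),
          ne_top_of_le_ne_top ENNReal.coe_ne_top (hδt (i + 1))⟩) ih) ih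
      refine h1.trans ?_
      rw [Finset.sum_range_succ _ (i + 1)]
      refine (add_le_add (hA2 (i + 1)) le_rfl).trans (le_of_eq ?_)
      ring
  set G : Set (ℕ × ℤ × ℤ) := ⋃ i, IN2_G A i with hG
  have hcov : Cov2 (IN2_Mx G) (⋃ i, F i) := by
    refine IN2_cov fun y hy => ?_
    obtain ⟨i, hi⟩ := Set.mem_iUnion.1 hy
    obtain ⟨c, hc, hcy⟩ := hcovG i y hi
    exact ⟨c, Set.mem_iUnion.2 ⟨i, hc⟩, hcy⟩
  refine (IN2_cont_le ψ hcov).trans ?_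
  unfold cst2
  rw [ENNReal.tsum_eq_iSup_sum]
  refine iSup_le fun T => ?_
  have hT : ∃ i, ∀ c ∈ T, (c : ℕ × ℤ × ℤ) ∈ IN2_G A i := by
    induction T using Finset.induction_on with
    | empty => exact ⟨0, fun c hc => absurd hc (Finset.notMem_empty c)⟩
    | insert a T _ ih =>
      obtain ⟨i, hi⟩ := ih
      obtain ⟨j, hj⟩ := Set.mem_iUnion.1 a.2.1
      refine ⟨max i j, fun c hc => ?_⟩
      rcases Finset.mem_insert.1 hc with h | h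
      · rw [h]; exact IN2_Gmono A (le_max_right i j) hj
      · exact IN2_Gmono A (le_max_left i j) (hi c h)
  obtain ⟨i, hi⟩ := hT
  have h1 : ∑ c ∈ T, ψ (c : ℕ × ℤ × ℤ).1 ≤ cst2 ψ (IN2_Mx (IN2_G A i)) := by
    have h2 : ∀ c ∈ T, (c : ℕ × ℤ × ℤ) ∈ IN2_Mx (IN2_G A i) := fun c hc =>
      ⟨hi c hc, fun c' hc' hle => c.2.2 c' (Set.mem_iUnion.2 ⟨i, hc'⟩) hle⟩
    have h3 : ∑ c ∈ T, ψ (c : ℕ × ℤ × ℤ).1 = ∑ c ∈ T.image Subtype.val, ψ c.1 := by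
      rw [Finset.sum_image]
      intro a _ b _ hab
      exact Subtype.ext hab
    rw [h3]
    have h4 : ((T.image Subtype.val : Finset (ℕ × ℤ × ℤ)) : Set (ℕ × ℤ × ℤ)) ⊆
        IN2_Mx (IN2_G A i) := by
      intro c hc
      obtain ⟨a, ha, rfl⟩ := Finset.mem_image.1 (Finset.mem_coe.1 hc)
      exact h2 a ha
    refine le_trans (le_of_eq ?_) (IN2_mono ψ h4)
    unfold cst2
    exact (Finset.tsum_subtype' _ (fun c : ℕ × ℤ × ℤ => ψ c.1)).symm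
  calc ∑ c ∈ T, ψ (c : ℕ × ℤ × ℤ).1 ≤ cst2 ψ (IN2_Mx (IN2_G A i)) := h1
    _ ≤ cont2 ψ (F i) + ∑ j ∈ range (i + 1), δ j := hmain i
    _ ≤ s + ε := add_le_add (hs i) (hδt _)

end Pool.Agent.ZP
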