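import Pool.Agent.helper99.ZP.Spec

/-! # zp: row KST -/

set_option autoImplicit false

open Finset
open Pool.Agent.helper32.Cant
open Pool.Agent.GA (nrm chi ch St sg flp Psi rc ph pot rpot far nc gf ncs gfs good mj om pick pat et kap mult)
open Pool.Agent.ZR
open scoped ENNReal

namespace Pool.Agent.ZP

theorem KST_et (n g : ℕ) (y U K : ℝ) (hK : 0 < K) : 0 ≤ et n g y U K := by
  unfold et
  positivity

theorem KST (hL1W : Pool.Agent.ZP.L1W_stmt) (hNUM : NUM_stmt) (gFP1 : Pool.Agent.GA.FP1_stmt)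
    (gFP2 : Pool.Agent.GA.FP2_stmt) : Pool.Agent.ZP.KST_stmt := by
  intro σ M hσ hM
  obtain ⟨k₀, hk₀⟩ := hNUM σ M hσ hM
  refine ⟨k₀, ?_⟩
  intro k hk n hn X _ c hWt hWip
  obtain ⟨m, hm⟩ : ∃ m : ℕ, m = Nat.clog 3 k := ⟨_, rfl⟩
  obtain ⟨-, h2, h3, h4⟩ := hk₀ k hk k (by omega)
  rw [← hm] at h2 h3 h4 hn
  have hkm : k ≤ 3 ^ m := by
    rw [hm]
    exact Nat.le_pow_clog (by norm_num) k
  obtain ⟨κ, hκ⟩ : ∃ κ : ℕ, κ = k - 30 * m := ⟨_, rfl⟩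
  obtain ⟨g, hg⟩ : ∃ g : ℕ, g = 91 * m := ⟨_, rfl⟩
  obtain ⟨T, hT⟩ : ∃ T : ℕ, T = (κ - g) / (2 * g) := ⟨_, rfl⟩
  have hg0 : 0 < 2 * g := by omega
  have hT1 : 2 * g * T + g ≤ κ := by
    have := Nat.mul_div_le (κ - g) (2 * g)
    rw [← hT] at this
    omega
  have hT2 : κ ≤ 2 * g * T + 3 * g := by
    have h5 := Nat.lt_mul_div_succ (κ - g) hg0
    rw [← hT] at h5
    have e : 2 * g * (T + 1) = 2 * g * T + 2 * g := by ring
    rw [e] at h5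
    omega
  have hj : k ≤ 2 * (2 * g * T + 2) := by omega
  obtain ⟨h1, -, -, -⟩ := hk₀ k hk (2 * g * T + 2) hj
  rw [← hm] at h1
  obtain ⟨x₁, hx₁⟩ : ∃ x₁ : ℕ, x₁ = 3 ^ (κ + 90 * m) := ⟨_, rfl⟩
  have hx1 : 1 ≤ x₁ := by rw [hx₁]; exact Nat.one_le_pow _ _ (by norm_num)
  have hx2 : 9 * x₁ ≤ 3 ^ (g + κ) := by
    rw [hx₁, show (9 : ℕ) = 3 ^ 2 by norm_num, ← pow_add]
    exact Nat.pow_le_pow_right (by norm_num) (by omega)
  have hx3 : 8 * x₁ ≤ 3 ^ n := by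
    have h5 : 9 * x₁ ≤ 3 ^ n := by
      rw [hx₁, show (9 : ℕ) = 3 ^ 2 by norm_num, ← pow_add]
      exact Nat.pow_le_pow_right (by norm_num) (by omega)
    omega
  have hψ : 0 < psi (10 ^ 14) (2 * g * T + 2) := by unfold psi; exact Real.exp_pos _
  have hK : (2 : ℝ) ≤ 3 ^ (125 * m) := by
    calc (2 : ℝ) ≤ 3 ^ 1 := by norm_num
      _ ≤ 3 ^ (125 * m) := pow_le_pow_right₀ (by norm_num) (by omega)
  have hmain := hL1W n k X c κ k g T x₁ (2 * 10 ^ 13 * (m : ℝ) ^ 3 - 1)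
    (M * psi (10 ^ 14) (2 * g * T + 2)) (8400000 * m) (3 ^ (125 * m)) (by omega) (by omega)
    (by omega) (by omega) (by omega) hT1 hT2 hK hx1 hx2 hx3 (by positivity)
    (hWip _ (by omega))
  have e1 : k - κ = 30 * m := by omega
  have e2 : k + 1 - κ = 30 * m + 1 := by omega
  have e3 : (x₁ : ℝ) / 3 ^ κ = 3 ^ (90 * m) := by
    rw [hx₁, div_eq_iff (by positivity)]
    push_cast
    rw [← pow_add]
    congr 1
    ring
  rw [e1, e2, e3, hg] at hmain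
  have f1 := gFP1 k m (by omega) hkm
  have f2 := gFP2 k m (et k (91 * m) (2 * 10 ^ 13 * (m : ℝ) ^ 3 - 1) (8400000 * m) (3 ^ (125 * m)))
    h4 hkm (KST_et _ _ _ _ _ (by positivity)) f1
  have h3p : (0 : ℝ) < 3 ^ (30 * m) := by positivity
  have f3 : (8 : ℝ) / 3 ^ (30 * m + 1) ≤ 3 / 3 ^ (30 * m) := by
    rw [div_le_div_iff₀ (by positivity) h3p, pow_succ]
    nlinarith
  have hWt0 : 0 < Wt c := lt_of_lt_of_le (by positivity) hWt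
  obtain ⟨A, hA⟩ : ∃ A : ℝ, A = 2 ^ n * (3 ^ (2 * n - (k + 1)) * Wt c) := ⟨_, rfl⟩
  have hA0 : 0 ≤ A := by rw [hA]; positivity
  rw [← hg] at hmain f2
  rw [← hA] at hmain ⊢
  have g1 : (13 * √(kap k (30 * m) (3 ^ (90 * m)) (et k g (2 * 10 ^ 13 * (m : ℝ) ^ 3 - 1)
      (8400000 * m) (3 ^ (125 * m)))) + 8 / 3 ^ (30 * m + 1)) * A ≤ 1 / (2 * (k : ℝ) ^ 2) * A := by
    refine mul_le_mul_of_nonneg_right ?_ hA0
    linarith
  have g2 : 6 * (3 ^ (2 * n - (k + 1)) * (2 ^ n * (Real.exp (2 * 10 ^ 13 * (m : ℝ) ^ 3 - 1) *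
      (M * psi (10 ^ 14) (2 * g * T + 2) * 3 ^ n)))) ≤ 1 / (2 * (k : ℝ) ^ 2) * A := by
    have g3 : Real.exp (2 * 10 ^ 13 * (m : ℝ) ^ 3 - 1) ≤ Real.exp (2 * 10 ^ 13 * (m : ℝ) ^ 3) :=
      Real.exp_le_exp.2 (by linarith)
    have g4 : 6 * (Real.exp (2 * 10 ^ 13 * (m : ℝ) ^ 3 - 1) * (M * psi (10 ^ 14) (2 * g * T + 2))) ≤
        σ * (1 / (2 * (k : ℝ) ^ 2)) := by
      refine le_trans ?_ h1
      refine mul_le_mul_of_nonneg_left ?_ (by norm_num)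
      exact mul_le_mul_of_nonneg_right g3 (by positivity)
    have g5 : 0 ≤ 1 / (2 * (k : ℝ) ^ 2) := by positivity
    calc 6 * (3 ^ (2 * n - (k + 1)) * (2 ^ n * (Real.exp (2 * 10 ^ 13 * (m : ℝ) ^ 3 - 1) *
          (M * psi (10 ^ 14) (2 * g * T + 2) * 3 ^ n))))
        = (2 ^ n * (3 ^ (2 * n - (k + 1)) * 3 ^ n)) * (6 * (Real.exp (2 * 10 ^ 13 * (m : ℝ) ^ 3 - 1) *
          (M * psi (10 ^ 14) (2 * g * T + 2)))) := by ring
      _ ≤ (2 ^ n * (3 ^ (2 * n - (k + 1)) * 3 ^ n)) * (σ * (1 / (2 * (k : ℝ) ^ 2))) :=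
          mul_le_mul_of_nonneg_left g4 (by positivity)
      _ = 1 / (2 * (k : ℝ) ^ 2) * (2 ^ n * (3 ^ (2 * n - (k + 1)) * (σ * 3 ^ n))) := by ring
      _ ≤ 1 / (2 * (k : ℝ) ^ 2) * A := by
          rw [hA]
          refine mul_le_mul_of_nonneg_left ?_ g5
          refine mul_le_mul_of_nonneg_left ?_ (by positivity)
          exact mul_le_mul_of_nonneg_left hWt (by positivity)
  have e4 : 1 / (k : ℝ) ^ 2 * A = 1 / (2 * (k : ℝ) ^ 2) * A + 1 / (2 * (k : ℝ) ^ 2) * A := by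
    have hkr : (0 : ℝ) < k := by
      have : 0 < k := by omega
      exact_mod_cast this
    field_simp
    ring
  rw [e4]
  exact hmain.trans (add_le_add g1 g2)

end Pool.Agent.ZP
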