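import Pool.Agent.helper99.ZP.Spec
import Pool.Agent.helper82.GA.UFB

/-!
# Project zr (MP_3c0a64_an), row L1W
-/

set_option autoImplicit false
set_option linter.unusedVariables false

namespace Pool.Agent.ZP

open Pool.Agent.ZR

open Finset
open Pool.Agent.helper32.Cant
open Pool.Agent.GA (nrm chi ch St sg flp Psi rc ph pot rpot far nc gf ncs gfs good mj om pick pat et kap mult)
open scoped ENNReal

noncomputable section

theorem L1W_ind_nonneg (p : Prop) : 0 ≤ ind p := by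
  unfold ind
  split_ifs <;> norm_num

theorem L1W_ind_le (p : Prop) : ind p ≤ 1 := by
  unfold ind
  split_ifs <;> norm_num

theorem L1W_ind_add (p : Prop) : ind p + ind (¬ p) = 1 := by
  classical
  unfold ind
  by_cases h : p
  · rw [if_pos h, if_neg (not_not.mpr h)]; norm_num
  · rw [if_neg h, if_pos h]; norm_num

theorem L1W_cnt (M : ℕ) [NeZero M] (L : ℕ) :
    ∑ v : ZMod M, ind (v.val < L) ≤ (L : ℝ) := by
  classical
  have h1 : ∑ v : ZMod M, ind (v.val < L) =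
      (((univ : Finset (ZMod M)).filter (fun v => v.val < L)).card : ℝ) := by
    rw [Finset.card_filter, Nat.cast_sum]
    refine Finset.sum_congr rfl fun v _ => ?_
    unfold ind
    by_cases h : v.val < L
    · rw [if_pos h, if_pos h, Nat.cast_one]
    · rw [if_neg h, if_neg h, Nat.cast_zero]
  have h2 : ((univ : Finset (ZMod M)).filter (fun v => v.val < L)).card ≤ (range L).card := by
    refine Finset.card_le_card_of_injOn (fun v => v.val) ?_ ?_
    · intro v hv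
      have hv' := (Finset.mem_filter.1 (Finset.mem_coe.1 hv)).2
      rw [Finset.mem_coe, Finset.mem_range]
      exact hv'
    · exact (ZMod.val_injective M).injOn
  rw [h1]
  rw [card_range] at h2
  exact_mod_cast h2

theorem L1W_DM {n : ℕ} {X : Type} [Fintype X] (c : Fam n X) (κ k : ℕ) (p : St n)
    (hpos : ∀ z, 0 < wm c κ p z) :
    ∑ v, |DM c κ k p v| ≤ 2 * (3 : ℝ) ^ (2 * n - (k + 1)) * NM c κ p := by
  set Ln : ℕ := 3 ^ (2 * n - (k + 1)) with hLn
  have h1 : ∀ v, |DM c κ k p v| ≤ ∑ z, wm c κ p z * (ind ((um c p z - v).val < Ln)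
      + ind ((um c p z - v - ((Ln : ℕ) : ZMod (3 ^ (2 * n)))).val < Ln)) := by
    intro v
    unfold DM
    refine (Finset.abs_sum_le_sum_abs _ _).trans (Finset.sum_le_sum fun z _ => ?_)
    rw [abs_mul, abs_of_pos (hpos z)]
    refine mul_le_mul_of_nonneg_left ?_ (hpos z).le
    have a1 := L1W_ind_nonneg ((um c p z - v).val < Ln)
    have a2 := L1W_ind_nonneg ((um c p z - v - ((Ln : ℕ) : ZMod (3 ^ (2 * n)))).val < Ln)
    rw [abs_le]
    constructor <;> linarith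
  have h2 : ∀ u : ZMod (3 ^ (2 * n)), ∑ v, ind ((u - v).val < Ln) ≤ (Ln : ℝ) := by
    intro u
    have e := Equiv.sum_comp (Equiv.subLeft u) (fun v => ind (v.val < Ln))
    simp only [Equiv.subLeft_apply] at e
    rw [e]
    exact L1W_cnt (3 ^ (2 * n)) Ln
  calc ∑ v, |DM c κ k p v| ≤ ∑ v, ∑ z, wm c κ p z * (ind ((um c p z - v).val < Ln)
      + ind ((um c p z - v - ((Ln : ℕ) : ZMod (3 ^ (2 * n)))).val < Ln)) :=
        Finset.sum_le_sum fun v _ => h1 v
    _ = ∑ z, wm c κ p z * (∑ v, ind ((um c p z - v).val < Ln)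
      + ∑ v, ind ((um c p z - v - ((Ln : ℕ) : ZMod (3 ^ (2 * n)))).val < Ln)) := by
        rw [Finset.sum_comm]
        refine Finset.sum_congr rfl fun z _ => ?_
        rw [← Finset.mul_sum, Finset.sum_add_distrib]
    _ ≤ ∑ z, wm c κ p z * ((Ln : ℝ) + Ln) := by
        refine Finset.sum_le_sum fun z _ => ?_
        refine mul_le_mul_of_nonneg_left ?_ (hpos z).le
        have e : ∀ v : ZMod (3 ^ (2 * n)), um c p z - v - ((Ln : ℕ) : ZMod (3 ^ (2 * n))) =
            (um c p z - ((Ln : ℕ) : ZMod (3 ^ (2 * n)))) - v := fun v => by ring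
        have h3 := h2 (um c p z - ((Ln : ℕ) : ZMod (3 ^ (2 * n))))
        have h4 : ∑ v, ind ((um c p z - v - ((Ln : ℕ) : ZMod (3 ^ (2 * n)))).val < Ln) ≤ (Ln : ℝ) := by
          refine le_trans (le_of_eq (Finset.sum_congr rfl fun v _ => ?_)) h3
          rw [e v]
        exact add_le_add (h2 _) h4
    _ = 2 * (3 : ℝ) ^ (2 * n - (k + 1)) * NM c κ p := by
        rw [← Finset.sum_mul, hLn]
        unfold NM
        push_cast
        ring

theorem L1W (hDSM : Pool.Agent.ZP.DSM_stmt) (hTOT : TOT_stmt) (hLIG : LIG_stmt)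
    (hLW2 : LW2_stmt) : L1W_stmt := by
  intro n h X _ c κ k g T x₁ y ω U K hh hκh hκk hkn hg h1 h2 hK hx hx1 hx2 hω hwin
  have hlw := hLW2 n X c κ k hκk hkn
  have hdsm := hDSM n h X c κ k g T x₁ y ω U K hh hκh hκk hkn hg h1 h2 hK hx hx1 hx2 hwin
  obtain ⟨hT1, hpos, hNn, hW0, _⟩ := hTOT n X c
  have hNN := hT1 κ (by omega)
  have hlig := hLIG n X c κ y ω hω
  set Q := kap h (k - κ) (x₁ / 3 ^ κ) (et h g y U K) with hQ
  set ℓ : ℝ := (3 : ℝ) ^ (2 * n - κ) with hℓ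
  set L : ℝ := (3 : ℝ) ^ (2 * n - (k + 1)) with hL
  have hℓpos : 0 < ℓ := by positivity
  have hLpos : 0 < L := by positivity
  set Ms := ∑ p, NM c κ p with hS
  have hS0 : 0 ≤ Ms := Finset.sum_nonneg fun p _ => hNn κ p
  have hDM0 : ∀ p, NM c κ p = 0 → ∀ v, DM c κ k p v = 0 := by
    intro p hp v
    have hz := (Finset.sum_eq_zero_iff_of_nonneg (fun z _ => (hpos κ p z).le)).mp hp
    unfold DM
    refine Finset.sum_eq_zero fun z hzz => ?_
    exact absurd (hz z hzz) (hpos κ p z).ne'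
  -- the inner sum
  have hin : ∀ p, ∑ v, ind (nrm v < ℓ) * |DM c κ k p v| ≤ √(2 * ℓ) * √(∑ v, DM c κ k p v ^ 2) := by
    intro p
    refine Pool.Agent.GA.UFB_cs univ (fun v => ind (nrm v < ℓ)) (fun v => |DM c κ k p v|) _ _ ?_ ?_
    · have hc := Pool.Agent.GA.UFB_count (3 ^ (2 * n)) (3 ^ (2 * n - κ))
      push_cast at hc
      rw [← hℓ] at hc
      refine le_trans (le_of_eq (Finset.sum_congr rfl fun v _ => ?_)) hc
      unfold ind
      split_ifs <;> norm_num
    · exact le_of_eq (Finset.sum_congr rfl fun v _ => sq_abs _)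
  -- the outer sum
  have hout : ∑ p, ind (hm c κ y ω p) * √(∑ v, DM c κ k p v ^ 2) ≤
      √Ms * √(L ^ 2 * 3 ^ κ / 3 ^ (2 * n) * Q * Ms) := by
    have h3 : ∀ p, ind (hm c κ y ω p) * √(∑ v, DM c κ k p v ^ 2) =
        √(NM c κ p) * (ind (hm c κ y ω p) * √((∑ v, DM c κ k p v ^ 2) / NM c κ p)) := by
      intro p
      rcases (hNn κ p).eq_or_lt with h0 | h0
      · have hz := hDM0 p h0.symm
        have e : ∑ v, DM c κ k p v ^ 2 = 0 :=
          Finset.sum_eq_zero fun v _ => by rw [hz v]; norm_num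
        rw [e, ← h0]
        simp
      · rw [mul_left_comm, ← Real.sqrt_mul h0.le, mul_div_cancel₀ _ h0.ne']
    rw [Finset.sum_congr rfl fun p _ => h3 p]
    refine Pool.Agent.GA.UFB_cs univ (fun p => √(NM c κ p))
      (fun p => ind (hm c κ y ω p) * √((∑ v, DM c κ k p v ^ 2) / NM c κ p)) _ _ ?_ ?_
    · exact le_of_eq (Finset.sum_congr rfl fun p _ => Real.sq_sqrt (hNn κ p))
    · refine le_trans (le_of_eq (Finset.sum_congr rfl fun p _ => ?_)) hdsm
      show (ind (hm c κ y ω p) * √((∑ v, DM c κ k p v ^ 2) / NM c κ p)) ^ 2 = _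
      rw [mul_pow, Real.sq_sqrt (div_nonneg (Finset.sum_nonneg fun v _ => sq_nonneg _)
        (hNn κ p))]
      have : ind (hm c κ y ω p) ^ 2 = ind (hm c κ y ω p) := by
        unfold ind
        split_ifs <;> norm_num
      rw [this]
  have hM : (3 : ℝ) ^ (2 * n) = 3 ^ κ * ℓ := by
    rw [hℓ, ← pow_add]
    congr 1
    omega
  have hroot : √Ms * √(L ^ 2 * 3 ^ κ / 3 ^ (2 * n) * Q * Ms) = Ms * L * √(Q / ℓ) := by
    have h4 : L ^ 2 * 3 ^ κ / 3 ^ (2 * n) * Q * Ms = (Ms * L ^ 2) * (Q / ℓ) := by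
      rw [hM]
      field_simp
    rw [h4, Real.sqrt_mul (by positivity), Real.sqrt_mul hS0, Real.sqrt_sq hLpos.le]
    have h5 : √Ms * √Ms = Ms := Real.mul_self_sqrt hS0
    calc √Ms * (√Ms * L * √(Q / ℓ)) = (√Ms * √Ms) * L * √(Q / ℓ) := by ring
      _ = _ := by rw [h5]
  have htot : ∑ p, ind (hm c κ y ω p) * ∑ v, ind (nrm v < ℓ) * |DM c κ k p v| ≤
      √(2 * ℓ) * (Ms * L * √(Q / ℓ)) := by
    calc ∑ p, ind (hm c κ y ω p) * ∑ v, ind (nrm v < ℓ) * |DM c κ k p v| ≤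
        ∑ p, ind (hm c κ y ω p) * (√(2 * ℓ) * √(∑ v, DM c κ k p v ^ 2)) := by
          refine Finset.sum_le_sum fun p _ => ?_
          exact mul_le_mul_of_nonneg_left (hin p) (L1W_ind_nonneg _)
      _ = √(2 * ℓ) * ∑ p, ind (hm c κ y ω p) * √(∑ v, DM c κ k p v ^ 2) := by
          rw [Finset.mul_sum]
          exact Finset.sum_congr rfl fun p _ => by ring
      _ ≤ √(2 * ℓ) * (√Ms * √(L ^ 2 * 3 ^ κ / 3 ^ (2 * n) * Q * Ms)) :=
          mul_le_mul_of_nonneg_left hout (Real.sqrt_nonneg _)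
      _ = _ := by rw [hroot]
  have hsq : √(2 * ℓ) * √(Q / ℓ) = √2 * √Q := by
    rw [← Real.sqrt_mul (by positivity), ← Real.sqrt_mul (by norm_num)]
    congr 1
    field_simp
  have hs2 : √2 ≤ 13 / 9 := by
    rw [Real.sqrt_le_left (by norm_num)]
    norm_num
  have hQ0 : 0 ≤ √Q := Real.sqrt_nonneg _
  -- the light states
  have hlt : ∑ p, ind (¬ hm c κ y ω p) * ∑ v, ind (nrm v < ℓ) * |DM c κ k p v| ≤
      2 * L * (2 ^ n * 3 ^ (2 * n) * (Real.exp y * (ω * 3 ^ (n - κ)))) := by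
    calc ∑ p, ind (¬ hm c κ y ω p) * ∑ v, ind (nrm v < ℓ) * |DM c κ k p v| ≤
        ∑ p, ind (¬ hm c κ y ω p) * (2 * L * NM c κ p) := by
          refine Finset.sum_le_sum fun p _ => ?_
          refine mul_le_mul_of_nonneg_left ?_ (L1W_ind_nonneg _)
          refine le_trans ?_ (L1W_DM c κ k p (hpos κ p))
          refine Finset.sum_le_sum fun v _ => ?_
          calc ind (nrm v < ℓ) * |DM c κ k p v| ≤ 1 * |DM c κ k p v| :=
                mul_le_mul_of_nonneg_right (L1W_ind_le _) (abs_nonneg _)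
            _ = _ := one_mul _
      _ = 2 * L * ∑ p, ind (¬ hm c κ y ω p) * NM c κ p := by
          rw [Finset.mul_sum]
          exact Finset.sum_congr rfl fun p _ => by ring
      _ ≤ _ := mul_le_mul_of_nonneg_left hlig (by positivity)
  have hsplit : ∑ p, ∑ v, ind (nrm v < ℓ) * |DM c κ k p v| =
      ∑ p, ind (hm c κ y ω p) * ∑ v, ind (nrm v < ℓ) * |DM c κ k p v| +
      ∑ p, ind (¬ hm c κ y ω p) * ∑ v, ind (nrm v < ℓ) * |DM c κ k p v| := by
    rw [← Finset.sum_add_distrib]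
    refine Finset.sum_congr rfl fun p _ => ?_
    rw [← add_mul, L1W_ind_add, one_mul]
  rw [hsplit] at hlw
  have hmain : 3 / ℓ * (∑ p, ind (hm c κ y ω p) * ∑ v, ind (nrm v < ℓ) * |DM c κ k p v|) ≤
      13 * √Q * (2 ^ n * (L * Wt c)) := by
    calc 3 / ℓ * (∑ p, ind (hm c κ y ω p) * ∑ v, ind (nrm v < ℓ) * |DM c κ k p v|) ≤
        3 / ℓ * (√(2 * ℓ) * (Ms * L * √(Q / ℓ))) :=
          mul_le_mul_of_nonneg_left htot (by positivity)
      _ ≤ 3 / ℓ * (√(2 * ℓ) * ((3 * (2 ^ n * (ℓ * Wt c))) * L * √(Q / ℓ))) := by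
          refine mul_le_mul_of_nonneg_left ?_ (by positivity)
          refine mul_le_mul_of_nonneg_left ?_ (Real.sqrt_nonneg _)
          refine mul_le_mul_of_nonneg_right ?_ (Real.sqrt_nonneg _)
          exact mul_le_mul_of_nonneg_right hNN hLpos.le
      _ = 9 * (√(2 * ℓ) * √(Q / ℓ)) * (2 ^ n * (L * Wt c)) := by
          field_simp
          ring
      _ = 9 * (√2 * √Q) * (2 ^ n * (L * Wt c)) := by rw [hsq]
      _ ≤ 9 * (13 / 9 * √Q) * (2 ^ n * (L * Wt c)) := by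
          refine mul_le_mul_of_nonneg_right ?_ (by positivity)
          refine mul_le_mul_of_nonneg_left ?_ (by norm_num)
          exact mul_le_mul_of_nonneg_right hs2 hQ0
      _ = 13 * √Q * (2 ^ n * (L * Wt c)) := by ring
  have h3n : (3 : ℝ) ^ n = 3 ^ κ * 3 ^ (n - κ) := by
    rw [← pow_add]
    congr 1
    omega
  have hlight : 3 / ℓ * (∑ p, ind (¬ hm c κ y ω p) * ∑ v, ind (nrm v < ℓ) * |DM c κ k p v|) ≤
      6 * (L * (2 ^ n * (Real.exp y * (ω * 3 ^ n)))) := by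
    calc 3 / ℓ * (∑ p, ind (¬ hm c κ y ω p) * ∑ v, ind (nrm v < ℓ) * |DM c κ k p v|) ≤
        3 / ℓ * (2 * L * (2 ^ n * 3 ^ (2 * n) * (Real.exp y * (ω * 3 ^ (n - κ))))) :=
          mul_le_mul_of_nonneg_left hlt (by positivity)
      _ = 6 * (L * (2 ^ n * (Real.exp y * (ω * 3 ^ n)))) := by
          rw [hM, h3n]
          field_simp
          ring
  rw [mul_add] at hlw
  have hfin : (13 * √Q + 8 / 3 ^ (k + 1 - κ)) * (2 ^ n * (L * Wt c)) =
      13 * √Q * (2 ^ n * (L * Wt c)) + 8 / 3 ^ (k + 1 - κ) * (2 ^ n * (L * Wt c)) := by ring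
  rw [hfin]
  linarith

end

end Pool.Agent.ZP
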