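import Pool.Agent.helper99.ZP.Spec

set_option autoImplicit false
set_option linter.unusedVariables false

namespace Pool.Agent.ZP

open Pool.Agent.ZR

open Finset
open Pool.Agent.helper32.Cant
open Pool.Agent.GA (nrm chi ch St sg flp Psi rc ph pot rpot far nc gf ncs gfs good mj om pick pat et kap mult)
open scoped ENNReal

noncomputable section

/-- harmonic mean: if `∑ h ≤ P N θ` then `1/N ≤ θ/P ∑ 1/h` -/
theorem MPP_hm {ι : Type} (s : Finset ι) (h : ι → ℝ) {P N θ : ℝ} (hh : ∀ i ∈ s, 0 < h i)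
    (hP : (s.card : ℝ) = P) (hP0 : 0 < P) (hN : 0 < N) (hθ : 0 < θ)
    (hs : ∑ i ∈ s, h i ≤ P * (N * θ)) : P / (N * θ) ≤ ∑ i ∈ s, 1 / h i := by
  have h1 : P ^ 2 ≤ (∑ i ∈ s, h i) * ∑ i ∈ s, 1 / h i := by
    have h2 := Finset.sum_mul_sq_le_sq_mul_sq s (fun i => √(h i)) (fun i => 1 / √(h i))
    have h3 : ∑ i ∈ s, √(h i) * (1 / √(h i)) = P := by
      rw [← hP, Finset.sum_congr rfl (fun i hi => ?_), Finset.sum_const, nsmul_eq_mul, mul_one]
      have := Real.sqrt_pos.2 (hh i hi)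
      field_simp
    have h4 : ∑ i ∈ s, √(h i) ^ 2 = ∑ i ∈ s, h i :=
      Finset.sum_congr rfl fun i hi => Real.sq_sqrt (hh i hi).le
    have h5 : ∑ i ∈ s, (1 / √(h i)) ^ 2 = ∑ i ∈ s, 1 / h i :=
      Finset.sum_congr rfl fun i hi => by
        rw [div_pow, one_pow, Real.sq_sqrt (hh i hi).le]
    rw [h3, h4, h5] at h2
    exact h2
  have h0 : 0 ≤ ∑ i ∈ s, 1 / h i := Finset.sum_nonneg fun i hi => by
    have := hh i hi
    positivity
  rw [div_le_iff₀ (by positivity)]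
  have h6 : P * P ≤ P * ((∑ i ∈ s, 1 / h i) * (N * θ)) := by
    calc P * P = P ^ 2 := by ring
      _ ≤ (∑ i ∈ s, h i) * ∑ i ∈ s, 1 / h i := h1
      _ ≤ P * (N * θ) * ∑ i ∈ s, 1 / h i := mul_le_mul_of_nonneg_right hs h0
      _ = _ := by ring
  exact le_of_mul_le_mul_left h6 hP0

theorem MPP (gCHI : Pool.Agent.GA.CHI_stmt) (gPOT : Pool.Agent.GA.POT_stmt) (hONE : Pool.Agent.ZR.ONE_stmt)
    (gPT1 : Pool.Agent.GA.PT1_stmt) (hTWO : Pool.Agent.ZP.TWO_stmt) : Pool.Agent.ZP.MPP_stmt := by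
  intro n h X _ c κ g T x y ω U K hn hκh hκn hg hgT hκT hK hWin hx1 hx2 hx3
  rcases isEmpty_or_nonempty X with hX | hX
  · have e1 : ∀ p, NM c κ p = 0 := fun p => by
      unfold NM
      rw [Finset.univ_eq_empty, Finset.sum_empty]
    simp [e1]
  have hwpos : ∀ (p : St n) (z : X), 0 < wm c κ p z := fun p z =>
    mul_pos (c.pos z) ((gCHI (3 ^ (2 * n)) ((3 : ℝ) ^ (2 * n - κ)) (by positivity)).1 _).1
  have hNpos : ∀ p, 0 < NM c κ p := fun p =>
    Finset.sum_pos (fun z _ => hwpos p z) ⟨Classical.arbitrary X, mem_univ _⟩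
  -- the scale of the frequency
  have h3κ : 0 < 3 ^ κ := by positivity
  have hx0 : 0 < x := by
    have : 0 < 3 * h * 3 ^ κ := by positivity
    omega
  set B := Nat.log 3 (8 * x) with hB
  have hB1 : 3 ^ B ≤ 8 * x := Nat.pow_log_le_self 3 (by omega)
  have hB2 : 8 * x < 3 ^ (B + 1) := Nat.lt_pow_succ_log_self (by norm_num) _
  have hBn : B ≤ n := by
    by_contra hcon
    have h1 : 3 ^ (n + 1) ≤ 3 ^ B := Nat.pow_le_pow_right (by norm_num) (by omega)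
    have h2 : 3 ^ (n + 1) = 3 * 3 ^ n := by rw [pow_succ]; ring
    have h3 : 0 < 3 ^ n := by positivity
    omega
  have hκB : κ < B := by
    by_contra hcon
    have h1 : 3 ^ (B + 1) ≤ 3 ^ (κ + 1) := Nat.pow_le_pow_right (by norm_num) (by omega)
    have h2 : 3 ^ (κ + 1) = 3 * 3 ^ κ := by rw [pow_succ]; ring
    have h3 : 3 * 3 ^ κ ≤ 3 * h * 3 ^ κ := by nlinarith
    omega
  set ζ : ℝ := (x : ℝ) / 3 ^ B with hζ
  have h3B : (0 : ℝ) < 3 ^ B := by positivity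
  have hxζ : (x : ℝ) = ζ * 3 ^ B := by rw [hζ]; field_simp
  have hB1r : (3 : ℝ) ^ B ≤ 8 * x := by exact_mod_cast hB1
  have hB2r : 8 * (x : ℝ) < 3 * 3 ^ B := by
    have : (8 : ℝ) * x < 3 ^ (B + 1) := by exact_mod_cast hB2
    rw [pow_succ] at this; linarith
  have hζ1 : 1 / 8 ≤ ζ := by rw [hζ, le_div_iff₀ h3B]; linarith
  have hζ2 : ζ ≤ 3 / 8 := by rw [hζ, div_le_iff₀ h3B]; linarith
  have hnr : (1 : ℝ) ≤ h := by exact_mod_cast hn
  have hxr : (0 : ℝ) < x := by exact_mod_cast hx0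
  have hx1r : 3 * (h : ℝ) * 3 ^ κ ≤ x := by exact_mod_cast hx1
  have h3κr : (0 : ℝ) < 3 ^ κ := by positivity
  -- `t = 3^κ / x`
  set t : ℝ := 3 ^ κ / x with ht
  have ht0 : 0 < t := by positivity
  have ht1 : 3 * (h : ℝ) * t ≤ 1 := by
    rw [ht, mul_div_assoc', div_le_one hxr]; exact hx1r
  have ht2 : (3 : ℝ) ^ κ / 3 ^ B ≤ 3 / 8 * t := by
    rw [ht, mul_div_assoc', div_le_div_iff₀ h3B hxr]
    nlinarith
  have ht3 : (5 : ℝ) / 3 ^ g ≤ 5 / 9 * t := by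
    rw [ht, mul_div_assoc', div_le_div_iff₀ (by positivity) hxr]
    have : (9 : ℝ) * x ≤ 3 ^ (g + κ) := by exact_mod_cast hx2
    rw [pow_add] at this
    nlinarith
  set η : ℝ := 8 * (h : ℝ) ^ 2 * 9 ^ κ / (x : ℝ) ^ 2 with hη
  have hηt : η = 8 * (h : ℝ) ^ 2 * t ^ 2 := by
    rw [hη, ht, div_pow, ← pow_mul, mul_comm κ 2, pow_mul]
    norm_num
    ring
  have hη0 : 0 < η := by rw [hηt]; positivity
  have hη1 : η ≤ 1 := by
    rw [hηt]
    have : (h : ℝ) * t ≤ 1 / 3 := by linarith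
    have h2 : 0 ≤ (h : ℝ) * t := by positivity
    nlinarith
  have hε : 2 * (h : ℝ) ^ 2 * (3 * 3 ^ κ / 3 ^ B + 5 / 3 ^ g) ^ 2 ≤ η := by
    have h1 : (3 : ℝ) * 3 ^ κ / 3 ^ B + 5 / 3 ^ g ≤ 2 * t := by
      rw [mul_div_assoc]; linarith
    have h2 : 0 ≤ (3 : ℝ) * 3 ^ κ / 3 ^ B + 5 / 3 ^ g := by positivity
    calc 2 * (h : ℝ) ^ 2 * (3 * 3 ^ κ / 3 ^ B + 5 / 3 ^ g) ^ 2
        ≤ 2 * (h : ℝ) ^ 2 * (2 * t) ^ 2 := by gcongr
      _ = η := by rw [hηt]; ring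
  have hε3 : (2 : ℝ) * 3 ^ κ / 3 ^ B ≤ 1 / h := by
    rw [le_div_iff₀ (by linarith), mul_div_assoc]
    nlinarith
  -- et ≥ 0
  have het : 0 < η + et h g y U K := by
    have : 0 ≤ et h g y U K := by unfold et; positivity
    linarith
  -- the pairs
  set θ : ℝ := η + et h g y U K with hθ
  set I : Finset ((Fin (T + 1) → Fin (2 * g)) × ℕ) := univ ×ˢ range (3 ^ n) with hI
  set P : ℝ := (2 * g : ℝ) ^ (T + 1) * 3 ^ n with hP
  have hIP : (I.card : ℝ) = P := by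
    rw [hI, Finset.card_product, Finset.card_univ, Fintype.card_fun, Fintype.card_fin,
      Fintype.card_fin, Finset.card_range, hP]
    push_cast; ring
  have hP0 : 0 < P := by
    have : (4 : ℝ) ≤ g := by exact_mod_cast hg
    positivity
  set hf : St n → ((Fin (T + 1) → Fin (2 * g)) × ℕ) → ℝ := fun p i =>
    rpot n i.2 ζ η c.R (wm c κ p) (pat g κ i.1) with hhf
  -- positivity of `rpot`
  have hpos : ∀ p, ∀ i ∈ I, 0 < hf p i := by
    intro p i hi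
    have hsh : i.2 < 3 ^ n := by
      rw [hI, Finset.mem_product] at hi
      exact Finset.mem_range.1 hi.2
    simp only [hhf, rpot]
    have h1 : ∑ r ∈ range (3 ^ (n + 1)), η * ∑ z ∈ (univ : Finset X) with
        rc n i.2 ((pat g κ i.1).headD 0) (c.R z) = r, wm c κ p z = η * NM c κ p := by
      rw [← Finset.mul_sum, Finset.sum_fiberwise_of_maps_to]
      · rfl
      intro z _
      rw [Finset.mem_range]
      unfold rc
      have h1 : c.R z + i.2 < 3 ^ (n + 1) := by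
        have := c.hi z
        rw [pow_succ]; omega
      exact lt_of_le_of_lt (Nat.div_le_self _ _) h1
    have h2 : 0 < η * NM c κ p := mul_pos hη0 (hNpos p)
    rw [← h1] at h2
    refine lt_of_lt_of_le h2 (Finset.sum_le_sum fun r _ => ?_)
    exact (gPOT _ n i.2 ζ η c.R hη0.le hη1 (pat g κ i.1) _ (wm c κ p)
      (fun z _ => (hwpos p z).le)).1
  -- ONE
  have hone : ∀ i ∈ I, ∑ p, ‖VM c κ (x : ZMod (3 ^ (2 * n))) p univ‖ ^ 2 / hf p i ≤
      18 * ∑ p, NM c κ p := by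
    intro i hi
    have hsh : i.2 < 3 ^ n := by
      rw [hI, Finset.mem_product] at hi
      exact Finset.mem_range.1 hi.2
    obtain ⟨q1, q2, q3, q4, -, -⟩ := gPT1 g κ T i.1 (by omega) hgT
    refine hONE n h X c κ B g i.2 x ζ η (pat g κ i.1) hn hκB hBn hsh hxζ hζ1 hζ2 hη0 hη1 hε3 hε
      q1 q2 q3 (q4.trans ?_)
    have : T ≤ 2 * g * T := by nlinarith
    omega
  have hsum : ∑ p, ‖VM c κ (x : ZMod (3 ^ (2 * n))) p univ‖ ^ 2 * ∑ i ∈ I, 1 / hf p i ≤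
      P * (18 * ∑ p, NM c κ p) := by
    calc ∑ p, ‖VM c κ (x : ZMod (3 ^ (2 * n))) p univ‖ ^ 2 * ∑ i ∈ I, 1 / hf p i
        = ∑ i ∈ I, ∑ p, ‖VM c κ (x : ZMod (3 ^ (2 * n))) p univ‖ ^ 2 / hf p i := by
          rw [Finset.sum_comm]
          refine Finset.sum_congr rfl fun p _ => ?_
          rw [Finset.mul_sum]
          refine Finset.sum_congr rfl fun i _ => ?_
          ring
      _ ≤ ∑ i ∈ I, 18 * ∑ p, NM c κ p := Finset.sum_le_sum hone
      _ = _ := by rw [Finset.sum_const, nsmul_eq_mul, hIP]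
  have hkey : ∀ p, ind (hm c κ y ω p) * (‖VM c κ (x : ZMod (3 ^ (2 * n))) p univ‖ ^ 2 / NM c κ p)
      ≤ θ / P * (‖VM c κ (x : ZMod (3 ^ (2 * n))) p univ‖ ^ 2 * ∑ i ∈ I, 1 / hf p i) := by
    intro p
    have h0 : 0 ≤ ∑ i ∈ I, 1 / hf p i := Finset.sum_nonneg fun i hi => by
      have := hpos p i hi
      positivity
    by_cases hp : hm c κ y ω p
    · have e1 : ind (hm c κ y ω p) = 1 := by unfold ind; simp [hp]
      rw [e1, one_mul]
      have htwo := hTWO n h X c κ g T ζ η y ω U K p hκn hκh hg hgT hκT hK hζ1 hζ2 hη0 hη1 hWin hp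
      have h1 : ∑ i ∈ I, hf p i ≤ P * (NM c κ p * θ) := by
        rw [hI, Finset.sum_product]
        exact htwo
      have h2 := MPP_hm I (hf p) (hpos p) hIP hP0 (hNpos p) het h1
      have h3 : 1 / NM c κ p ≤ θ / P * ∑ i ∈ I, 1 / hf p i := by
        have h4 := mul_le_mul_of_nonneg_left h2 (show 0 ≤ θ / P by positivity)
        refine le_trans (le_of_eq ?_) h4
        have := hNpos p
        field_simp
      calc ‖VM c κ (x : ZMod (3 ^ (2 * n))) p univ‖ ^ 2 / NM c κ p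
          = ‖VM c κ (x : ZMod (3 ^ (2 * n))) p univ‖ ^ 2 * (1 / NM c κ p) := by ring
        _ ≤ ‖VM c κ (x : ZMod (3 ^ (2 * n))) p univ‖ ^ 2 * (θ / P * ∑ i ∈ I, 1 / hf p i) :=
            mul_le_mul_of_nonneg_left h3 (by positivity)
        _ = _ := by ring
    · have e1 : ind (hm c κ y ω p) = 0 := by unfold ind; simp [hp]
      rw [e1, zero_mul]
      positivity
  calc ∑ p, ind (hm c κ y ω p) * (‖VM c κ (x : ZMod (3 ^ (2 * n))) p univ‖ ^ 2 / NM c κ p)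
      ≤ ∑ p, θ / P * (‖VM c κ (x : ZMod (3 ^ (2 * n))) p univ‖ ^ 2 * ∑ i ∈ I, 1 / hf p i) :=
        Finset.sum_le_sum fun p _ => hkey p
    _ = θ / P * ∑ p, ‖VM c κ (x : ZMod (3 ^ (2 * n))) p univ‖ ^ 2 * ∑ i ∈ I, 1 / hf p i := by
        rw [← Finset.mul_sum]
    _ ≤ θ / P * (P * (18 * ∑ p, NM c κ p)) :=
        mul_le_mul_of_nonneg_left hsum (by positivity)
    _ = 18 * θ * ∑ p, NM c κ p := by field_simp


end

end Pool.Agent.ZP
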