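import Pool.Agent.helper99.ZP.Spec
import Pool.Agent.helper32.Cant.Basic


/-! # zr: row TWO -/

set_option autoImplicit false

open Finset
open Pool.Agent.helper32.Cant
open Pool.Agent.GA (nrm chi ch St sg flp Psi rc ph pot rpot far nc gf ncs gfs good mj om pick pat et kap mult)
open scoped ENNReal

namespace Pool.Agent.ZP

open Pool.Agent.ZR



section gen

variable {X : Type} [Fintype X]

theorem TWO_mj_pos (n j : ℕ) (R : X → ℕ) (w : X → ℝ) (hw : ∀ x, 0 < w x) (x : X) :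
    0 < mj n R w j x := by
  unfold mj
  have h1 : w x * ind (|(R x : ℤ) - R x| ≤ 3 ^ (n - j)) ≤
      ∑ y, w y * ind (|(R y : ℤ) - R x| ≤ 3 ^ (n - j)) :=
    Finset.single_le_sum (f := fun y => w y * ind (|(R y : ℤ) - R x| ≤ 3 ^ (n - j)))
      (fun y _ => mul_nonneg (hw y).le (ind_nonneg _)) (Finset.mem_univ x)
  refine lt_of_lt_of_le ?_ h1
  rw [ind_of (by rw [sub_self, abs_zero]; positivity), mul_one]
  exact hw x

theorem TWO_mj_anti (n j : ℕ) (R : X → ℕ) (w : X → ℝ) (hw : ∀ x, 0 < w x) (x : X) :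
    mj n R w (j + 1) x ≤ mj n R w j x := by
  unfold mj
  apply Finset.sum_le_sum
  intro y _
  apply mul_le_mul_of_nonneg_left _ (hw y).le
  by_cases h : |(R y : ℤ) - R x| ≤ 3 ^ (n - (j + 1))
  · rw [ind_of h, ind_of (h.trans (pow_le_pow_right₀ (by norm_num) (by omega)))]
  · rw [ind_of_not h]
    exact ind_nonneg _

theorem TWO_om (n : ℕ) (R : X → ℕ) (w : X → ℝ) (hw : ∀ x, 0 < w x) (x : X) (i : ℕ) :
    0 ≤ om n R w i x ∧ om n R w i x ≤ 1 := by
  unfold om
  have h1 := TWO_mj_pos n (i + 2) R w hw x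
  have h2 := TWO_mj_pos n (i + 3) R w hw x
  have h3 := TWO_mj_anti n (i + 2) R w hw x
  refine ⟨?_, ?_⟩
  · have : mj n R w (i + 3) x / mj n R w (i + 2) x ≤ 1 := by
      rw [div_le_one h1]
      exact h3
    linarith
  · have : 0 ≤ mj n R w (i + 3) x / mj n R w (i + 2) x := by positivity
    linarith

end gen

theorem TWO_log3 : Real.log 3 ≤ 1.19314719 := by
  have h1 : Real.log 3 = Real.log 2 + Real.log (3 / 2) := by
    rw [← Real.log_mul (by norm_num) (by norm_num)]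
    norm_num
  have h2 := Real.log_le_sub_one_of_pos (show (0 : ℝ) < 3 / 2 by norm_num)
  have h3 := Real.log_two_lt_d9
  rw [h1]
  linarith

theorem TWO_log40 : Real.log 40 - 2 * Real.log 3 ≤ 1.4975 := by
  have h1 : Real.log 40 - 2 * Real.log 3 = 2 * Real.log 2 + Real.log (10 / 9) := by
    have e1 : Real.log 40 = 2 * Real.log 2 + Real.log 10 := by
      have : (40 : ℝ) = 2 ^ 2 * 10 := by norm_num
      rw [this, Real.log_mul (by norm_num) (by norm_num), Real.log_pow]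
      norm_num
    have e2 : Real.log (10 / 9) = Real.log 10 - 2 * Real.log 3 := by
      rw [Real.log_div (by norm_num) (by norm_num)]
      have : (9 : ℝ) = 3 ^ 2 := by norm_num
      rw [this, Real.log_pow]
      norm_num
    rw [e1, e2]
    ring
  have h2 := Real.log_le_sub_one_of_pos (show (0 : ℝ) < 10 / 9 by norm_num)
  have h3 := Real.log_two_lt_d9
  rw [h1]
  linarith

/-- the numerical part -/
theorem TWO_num {n κ m g : ℕ} {y K N M W : ℝ} (h1 : m + g ≤ κ) (h2 : κ ≤ m + 3 * g) (hg : 4 ≤ g)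
    (hκ : κ ≤ n) (hK : 2 ≤ K) (hN : Real.exp y * 3 ^ (n - κ) ≤ N) (hM0 : 0 < M)
    (hM : M ≤ 40 * 3 ^ (n - (m + 2))) {M2 : ℝ} (hM2 : N ≤ K * M2)
    (hW : Real.log (M2 / M) / (2 * Real.log K) ≤ W) :
    (y - Real.log K - 4 * g) / (2 * Real.log K) ≤ W := by
  have hlK : 0 < Real.log K := Real.log_pos (by linarith)
  refine le_trans ?_ hW
  apply div_le_div_of_nonneg_right _ (by linarith)
  have hN0 : 0 < N := lt_of_lt_of_le (by positivity) hN
  have hM20 : 0 < M2 := by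
    by_contra hc
    have : K * M2 ≤ 0 := by
      apply mul_nonpos_of_nonneg_of_nonpos (by linarith) (not_lt.1 hc)
    linarith
  rw [Real.log_div hM20.ne' hM0.ne']
  have e1 : y + ((n - κ : ℕ) : ℝ) * Real.log 3 ≤ Real.log N := by
    rw [Real.le_log_iff_exp_le hN0, Real.exp_add]
    refine le_trans (le_of_eq ?_) hN
    congr 1
    rw [mul_comm, Real.exp_mul, Real.exp_log (by norm_num), Real.rpow_natCast]
  have e2 : Real.log N ≤ Real.log K + Real.log M2 := by
    rw [← Real.log_mul (by linarith) hM20.ne']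
    exact Real.log_le_log hN0 hM2
  have e3 : Real.log M ≤ Real.log 40 + ((n - (m + 2) : ℕ) : ℝ) * Real.log 3 := by
    have h3 := Real.log_le_log hM0 hM
    rw [Real.log_mul (by norm_num) (by positivity), Real.log_pow] at h3
    exact h3
  have hl3 : 0 < Real.log 3 := Real.log_pos (by norm_num)
  have e4 : ((n - (m + 2) : ℕ) : ℝ) ≤ ((n - κ : ℕ) : ℝ) + 3 * g - 2 := by
    have h3 : (n - (m + 2)) + 2 ≤ (n - κ) + 3 * g := by omega
    have h4 : (((n - (m + 2)) + 2 : ℕ) : ℝ) ≤ (((n - κ) + 3 * g : ℕ) : ℝ) := by exact_mod_cast h3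
    push_cast at h4
    linarith
  have e5 := mul_le_mul_of_nonneg_right e4 hl3.le
  have e6 := TWO_log3
  have e7 := TWO_log40
  have hgR : (4 : ℝ) ≤ g := by exact_mod_cast hg
  have e8 : 3 * (g : ℝ) * Real.log 3 ≤ 3 * g * 1.19314719 :=
    mul_le_mul_of_nonneg_left e6 (by positivity)
  nlinarith

/-- the numerical part with the factor `ω` -/
theorem TWO_numω {n κ m g : ℕ} {y ω K N M W : ℝ} (h1 : m + g ≤ κ) (h2 : κ ≤ m + 3 * g) (hg : 4 ≤ g)
    (hκ : κ ≤ n) (hK : 2 ≤ K) (hN : Real.exp y * (ω * 3 ^ (n - κ)) ≤ N) (hM0 : 0 < M)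
    (hM : M ≤ 40 * (ω * 3 ^ (n - (m + 2)))) {M2 : ℝ} (hM2 : N ≤ K * M2)
    (hW : Real.log (M2 / M) / (2 * Real.log K) ≤ W) :
    (y - Real.log K - 4 * g) / (2 * Real.log K) ≤ W := by
  have hω : 0 < ω := by
    by_contra hc
    have h3 : ω * 3 ^ (n - (m + 2)) ≤ 0 :=
      mul_nonpos_of_nonpos_of_nonneg (not_lt.1 hc) (by positivity)
    linarith
  have h4 : (M2 / ω) / (M / ω) = M2 / M := by
    field_simp
  refine TWO_num (N := N / ω) (M := M / ω) (M2 := M2 / ω) h1 h2 hg hκ hK ?_ (by positivity) ?_ ?_ ?_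
  · rw [le_div_iff₀ hω]
    calc _ = Real.exp y * (ω * 3 ^ (n - κ)) := by ring
      _ ≤ N := hN
  · rw [div_le_iff₀ hω]
    calc M ≤ 40 * (ω * 3 ^ (n - (m + 2))) := hM
      _ = _ := by ring
  · rw [div_le_iff₀ hω]
    calc N ≤ K * M2 := hM2
      _ = _ := by field_simp
  · rw [h4]
    exact hW

theorem TWO (gCHI : Pool.Agent.GA.CHI_stmt) (gCV1 : Pool.Agent.GA.CV1_stmt) (gCV2 : Pool.Agent.GA.CV2_stmt) (gLGW : Pool.Agent.GA.LGW_stmt) (hUPP : Pool.Agent.ZP.UPP_stmt) (gAVG : Pool.Agent.GA.AVG_stmt) (hTW1 : Pool.Agent.ZR.TW1_stmt) : Pool.Agent.ZP.TWO_stmt := by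
  classical
  intro n h₀ X _ c κ g T ζ η y ω U K p hκn hκh hg hgT hκ3 hK hζ1 hζ2 hη0 hη1 hWin hhv
  rcases isEmpty_or_nonempty X with hX | hX
  · have e2 : NM c κ p = 0 := by simp [NM]
    rw [e2, zero_mul, mul_zero]
    refine Finset.sum_nonpos fun o _ => Finset.sum_nonpos fun sh hsh => ?_
    rw [Finset.mem_range] at hsh
    have h1 := hTW1 n X c κ g T sh ζ η U p o ∅ hκn hg hgT hsh hζ1 hζ2 hη0 hη1
    rw [e2, zero_mul] at h1
    simpa using h1
  obtain ⟨w, hwd⟩ : ∃ w : X → ℝ, w = wm c κ p := ⟨_, rfl⟩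
  have hw : ∀ x, 0 < w x := by
    intro x
    rw [hwd]
    unfold wm
    exact mul_pos (c.pos x) ((gCHI (3 ^ (2 * n)) ((3 : ℝ) ^ (2 * n - κ)) (by positivity)).1 (um c p x)).1
  obtain ⟨N, hNd⟩ : ∃ N : ℝ, N = NM c κ p := ⟨_, rfl⟩
  have hNw : N = ∑ x, w x := by
    rw [hNd, hwd]
    rfl
  unfold hm at hhv
  rw [← hNd] at hhv ⊢
  have hN0 : 0 < N := by
    rw [hNw]
    exact Finset.sum_pos (fun x _ => hw x) Finset.univ_nonempty
  obtain ⟨m, hm⟩ : ∃ m : ℕ, m = 2 * g * T := ⟨_, rfl⟩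
  have hK0 : 0 < K := by linarith
  have hlK : 0 < Real.log K := Real.log_pos (by linarith)
  have hgR : (4 : ℝ) ≤ g := by exact_mod_cast hg
  -- the bad set
  obtain ⟨Z, hZ⟩ : ∃ Z : Finset (X), Z = univ.filter fun x =>
      K * mj n c.R w 2 x < N ∨ ∃ i ∈ range m, K * mj n c.R w (i + 2 + 1) x < mj n c.R w (i + 2) x :=
    ⟨_, rfl⟩
  have hZm : ∑ x ∈ Z, w x ≤ 16 * h₀ / K * N := by
    have h1 : ∑ x ∈ Z, w x ≤ ∑ x, (w x * ind (K * mj n c.R w 2 x < N) +
        ∑ i ∈ range m, w x * ind (K * mj n c.R w (i + 2 + 1) x < mj n c.R w (i + 2) x)) := by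
      rw [hZ, Finset.sum_filter]
      apply Finset.sum_le_sum
      intro x _
      have hs0 : 0 ≤ ∑ i ∈ range m, w x *
          ind (K * mj n c.R w (i + 2 + 1) x < mj n c.R w (i + 2) x) :=
        Finset.sum_nonneg fun i _ => mul_nonneg (hw x).le (ind_nonneg _)
      have hs1 : 0 ≤ w x * ind (K * mj n c.R w 2 x < N) := mul_nonneg (hw x).le (ind_nonneg _)
      split_ifs with h
      · rcases h with h | ⟨i, hi, h⟩
        · rw [ind_of h, mul_one]
          linarith
        · have h2 : w x * ind (K * mj n c.R w (i + 2 + 1) x < mj n c.R w (i + 2) x) ≤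
              ∑ i ∈ range m, w x *
                ind (K * mj n c.R w (i + 2 + 1) x < mj n c.R w (i + 2) x) :=
            Finset.single_le_sum (f := fun i => w x *
              ind (K * mj n c.R w (i + 2 + 1) x < mj n c.R w (i + 2) x))
              (fun i _ => mul_nonneg (hw x).le (ind_nonneg _)) hi
          rw [ind_of h, mul_one] at h2
          linarith
      · linarith
    rw [Finset.sum_add_distrib, Finset.sum_comm] at h1
    have h2 := gCV2 X n c.R w K hw hK0 (by omega) c.lo c.hi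
    rw [← hNw] at h2
    have h3 : ∑ i ∈ range m, ∑ x, w x *
        ind (K * mj n c.R w (i + 2 + 1) x < mj n c.R w (i + 2) x) ≤
        ∑ _i ∈ range m, 7 / K * N := by
      apply Finset.sum_le_sum
      intro i hi
      rw [Finset.mem_range] at hi
      have h4 := gCV1 X n (i + 2) c.R w K hw hK0 (by omega)
      rw [← hNw] at h4
      exact h4
    rw [Finset.sum_const, Finset.card_range, nsmul_eq_mul] at h3
    have h5 : (7 * (m : ℝ) + 9) ≤ 16 * h₀ := by
      have : 7 * m + 9 ≤ 16 * h₀ := by omega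
      exact_mod_cast this
    calc ∑ x ∈ Z, w x ≤ 9 / K * N + (m : ℝ) * (7 / K * N) := by linarith
      _ = (7 * (m : ℝ) + 9) / K * N := by ring
      _ ≤ 16 * h₀ / K * N := by
          apply mul_le_mul_of_nonneg_right _ hN0.le
          exact div_le_div_of_nonneg_right h5 hK0.le
  -- outside the bad set
  obtain ⟨E3, hE3⟩ : ∃ E3 : ℝ, E3 =
      Real.exp (4 * U - (y - Real.log K - 4 * g) / (40 * g * Real.log K)) := ⟨_, rfl⟩
  obtain ⟨S, hS⟩ : ∃ S : (Fin (T + 1) → Fin (2 * g)) → ℕ → X → ℝ, S = fun o sh x =>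
      ((pat g κ o).dropLast.map (fun i => ind (good n sh i (c.R x)) * om n c.R w i x)).sum :=
    ⟨_, rfl⟩
  obtain ⟨Pn, hPn⟩ : ∃ Pn : ℝ, Pn = (2 * g : ℝ) ^ (T + 1) * 3 ^ n := ⟨_, rfl⟩
  have hPn0 : 0 ≤ Pn := by rw [hPn]; positivity
  have hout : ∀ x ∈ univ \ Z, ∑ o : Fin (T + 1) → Fin (2 * g), ∑ sh ∈ range (3 ^ n),
      w x * Real.exp (4 * U - S o sh x) ≤ Pn * (w x * E3) := by
    intro x hx
    rw [Finset.mem_sdiff, hZ, Finset.mem_filter] at hx
    have hx' : ¬ (K * mj n c.R w 2 x < N ∨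
        ∃ i ∈ range m, K * mj n c.R w (i + 2 + 1) x < mj n c.R w (i + 2) x) := by
      intro h
      exact hx.2 ⟨Finset.mem_univ _, h⟩
    push Not at hx'
    obtain ⟨hx1, hx2⟩ := hx'
    have hW := gLGW X n m c.R w K x hw hK (by
      intro i hi
      exact hx2 i (Finset.mem_range.2 hi))
    have hU := hUPP n X c κ (m + 2) ω p x (by rw [hm]; exact hWin) (by omega) hκn
    rw [← hwd] at hU
    have hWn := TWO_numω (by omega) (by omega) hg hκn hK hhv (TWO_mj_pos n (m + 2) c.R w hw x) hU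
      hx1 hW
    have hA := gAVG n g κ T (c.R x) (fun i => om n c.R w i x) (by omega) hgT hκn
      (fun i => TWO_om n c.R w hw x i)
    have e1 : ∑ o : Fin (T + 1) → Fin (2 * g), ∑ sh ∈ range (3 ^ n),
        w x * Real.exp (4 * U - S o sh x) = w x * Real.exp (4 * U) *
          ∑ o : Fin (T + 1) → Fin (2 * g), ∑ sh ∈ range (3 ^ n), Real.exp (-(S o sh x)) := by
      rw [Finset.mul_sum]
      apply Finset.sum_congr rfl
      intro o _
      rw [Finset.mul_sum]
      apply Finset.sum_congr rfl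
      intro sh _
      rw [mul_assoc, ← Real.exp_add]
      rfl
    rw [e1]
    have e2 : ∑ o : Fin (T + 1) → Fin (2 * g), ∑ sh ∈ range (3 ^ n), Real.exp (-(S o sh x)) ≤
        Pn * Real.exp (-((∑ i ∈ range m, om n c.R w i x) / (20 * g))) := by
      rw [hS, hPn, hm]
      exact hA
    have e3 : Real.exp (4 * U) * Real.exp (-((∑ i ∈ range m, om n c.R w i x) / (20 * g))) ≤
        E3 := by
      rw [← Real.exp_add, hE3]
      apply Real.exp_le_exp.2
      have h6 : (y - Real.log K - 4 * g) / (40 * g * Real.log K) =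
          (y - Real.log K - 4 * g) / (2 * Real.log K) / (20 * g) := by
        field_simp
        ring
      rw [h6]
      have h7 : (y - Real.log K - 4 * g) / (2 * Real.log K) / (20 * g) ≤
          (∑ i ∈ range m, om n c.R w i x) / (20 * g) :=
        div_le_div_of_nonneg_right hWn (by positivity)
      linarith
    calc w x * Real.exp (4 * U) *
          ∑ o : Fin (T + 1) → Fin (2 * g), ∑ sh ∈ range (3 ^ n), Real.exp (-(S o sh x))
        ≤ w x * Real.exp (4 * U) *
          (Pn * Real.exp (-((∑ i ∈ range m, om n c.R w i x) / (20 * g)))) :=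
          mul_le_mul_of_nonneg_left e2 (mul_nonneg (hw x).le (Real.exp_pos _).le)
      _ = Pn * (w x * (Real.exp (4 * U) *
            Real.exp (-((∑ i ∈ range m, om n c.R w i x) / (20 * g))))) := by ring
      _ ≤ Pn * (w x * E3) := by
          apply mul_le_mul_of_nonneg_left _ hPn0
          exact mul_le_mul_of_nonneg_left e3 (hw x).le
  -- the sum of TW1
  obtain ⟨A, hA⟩ : ∃ A : ℝ, A = Real.exp (-(U / 60000)) + η + Real.exp (-(2 * U)) := ⟨_, rfl⟩
  have hsum : ∑ o : Fin (T + 1) → Fin (2 * g), ∑ sh ∈ range (3 ^ n),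
      rpot n sh ζ η c.R (wm c κ p) (pat g κ o) ≤
      ∑ o : Fin (T + 1) → Fin (2 * g), ∑ sh ∈ range (3 ^ n),
        ((N * A + ∑ x ∈ Z, w x) + ∑ x ∈ univ \ Z, w x * Real.exp (4 * U - S o sh x)) := by
    apply Finset.sum_le_sum
    intro o _
    apply Finset.sum_le_sum
    intro sh hsh
    rw [Finset.mem_range] at hsh
    have h1 := hTW1 n X c κ g T sh ζ η U p o Z hκn hg hgT hsh hζ1 hζ2 hη0 hη1
    rw [← hNd, ← hwd] at h1
    rw [← hwd, hA, hS]
    exact h1
  refine hsum.trans ?_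
  have e1 : ∑ o : Fin (T + 1) → Fin (2 * g), ∑ sh ∈ range (3 ^ n),
      ((N * A + ∑ x ∈ Z, w x) + ∑ x ∈ univ \ Z, w x * Real.exp (4 * U - S o sh x)) =
      Pn * (N * A + ∑ x ∈ Z, w x) + ∑ x ∈ univ \ Z, ∑ o : Fin (T + 1) → Fin (2 * g),
        ∑ sh ∈ range (3 ^ n), w x * Real.exp (4 * U - S o sh x) := by
    have h1 : ∀ o : Fin (T + 1) → Fin (2 * g), ∑ sh ∈ range (3 ^ n),
        ((N * A + ∑ x ∈ Z, w x) + ∑ x ∈ univ \ Z, w x * Real.exp (4 * U - S o sh x)) =
        (3 : ℝ) ^ n * (N * A + ∑ x ∈ Z, w x) + ∑ x ∈ univ \ Z, ∑ sh ∈ range (3 ^ n),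
          w x * Real.exp (4 * U - S o sh x) := by
      intro o
      rw [Finset.sum_add_distrib, Finset.sum_const, Finset.card_range, nsmul_eq_mul,
        Finset.sum_comm]
      push_cast
      rfl
    rw [Finset.sum_congr rfl fun o _ => h1 o, Finset.sum_add_distrib, Finset.sum_const,
      nsmul_eq_mul, Finset.sum_comm, Finset.card_univ, Fintype.card_fun, Fintype.card_fin,
      Fintype.card_fin, hPn]
    push_cast
    ring
  rw [e1]
  have e2 : ∑ x ∈ univ \ Z, ∑ o : Fin (T + 1) → Fin (2 * g),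
        ∑ sh ∈ range (3 ^ n), w x * Real.exp (4 * U - S o sh x) ≤ Pn * (N * E3) := by
    calc _ ≤ ∑ x ∈ univ \ Z, Pn * (w x * E3) := Finset.sum_le_sum hout
      _ = Pn * ((∑ x ∈ univ \ Z, w x) * E3) := by
          rw [← Finset.mul_sum, ← Finset.sum_mul]
      _ ≤ Pn * (N * E3) := by
          apply mul_le_mul_of_nonneg_left _ hPn0
          apply mul_le_mul_of_nonneg_right _ (by rw [hE3]; exact (Real.exp_pos _).le)
          rw [hNw]
          exact Finset.sum_le_sum_of_subset_of_nonneg (Finset.subset_univ _)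
            fun x _ _ => (hw x).le
  have e3 : Pn * (N * A + ∑ x ∈ Z, w x) ≤ Pn * (N * A + 16 * h₀ / K * N) := by
    apply mul_le_mul_of_nonneg_left _ hPn0
    linarith
  have e4 : (2 * g : ℝ) ^ (T + 1) * 3 ^ n * (N * (η + et h₀ g y U K)) =
      Pn * (N * A + 16 * h₀ / K * N) + Pn * (N * E3) := by
    rw [← hPn, hA, hE3]
    unfold et
    ring
  rw [e4]
  linarith

end Pool.Agent.ZP
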