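import Pool.Agent.helper99.ZP.Spec
import Pool.Agent.helper71.GA.UPP

/-!
# zp:UPP, the mass of a ball is bounded (squares in the plane)
-/

set_option autoImplicit false

namespace Pool.Agent.ZP

open Finset
open Pool.Agent.helper32.Cant
open Pool.Agent.GA (nrm chi ch St sg flp Psi rc ph pot rpot far nc gf ncs gfs good mj om pick pat et kap mult)
open Pool.Agent.ZR
open scoped ENNReal

noncomputable section

/-- UPP -/
theorem UPP : Pool.Agent.ZP.UPP_stmt := by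
  intro n Ty _ c κ j ω p z₀ hWin hjκ hκn
  classical
  -- notation
  obtain ⟨q, hq⟩ : ∃ q : ℕ, q = 3 ^ (n - j) := ⟨_, rfl⟩
  obtain ⟨Q, hQ⟩ : ∃ Q : ℕ, Q = 3 ^ (n - κ) := ⟨_, rfl⟩
  have hQq : Q ≤ q := by
    rw [hq, hQ]
    exact Nat.pow_le_pow_right (by norm_num) (by omega)
  have hQ1 : 1 ≤ Q := by
    rw [hQ]
    exact Nat.one_le_pow _ _ (by norm_num)
  have hq1 : 1 ≤ q := le_trans hQ1 hQq
  have hqj : q * 3 ^ j = 3 ^ n := by
    rw [hq, ← pow_add]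
    congr 1
    omega
  have hqz : (q : ℤ) = 3 ^ (n - j) := by
    rw [hq]
    push_cast
    rfl
  obtain ⟨D, hD⟩ : ∃ D : ℤ, D = 3 ^ n * q := ⟨_, rfl⟩
  have h3n : (0 : ℤ) < 3 ^ n := by positivity
  have hqp : (0 : ℤ) < q := by exact_mod_cast hq1
  have hD0 : 0 < D := by rw [hD]; positivity
  obtain ⟨T, hT⟩ : ∃ T : ℤ, T = ((p.1.val : ℕ) : ℤ) + (c.R z₀ : ℤ) * E p.2 := ⟨_, rfl⟩
  obtain ⟨t, ht⟩ : ∃ t : Fin (3 ^ j) → ZMod (3 ^ (2 * n)),
    ∀ y, t y = ((D * ((y : ℕ) : ℤ) + T : ℤ) : ZMod (3 ^ (2 * n))) := ⟨_, fun y => rfl⟩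
  obtain ⟨s, hs⟩ : ∃ s : Fin (3 ^ j) → ℤ, ∀ y, s y = (t y).valMinAbs := ⟨_, fun y => rfl⟩
  obtain ⟨k, hk⟩ : ∃ k : Fin (3 ^ j) → ℤ, ∀ y, k y = s y / D := ⟨_, fun y => rfl⟩
  have hM : ((3 ^ (2 * n) : ℕ) : ℤ) = D * 3 ^ j := by
    have e1 : (q : ℤ) * 3 ^ j = 3 ^ n := by exact_mod_cast hqj
    have e2 : ((3 ^ (2 * n) : ℕ) : ℤ) = 3 ^ n * 3 ^ n := by
      push_cast
      rw [← pow_add]
      congr 1
      ring
    rw [e2, hD, mul_assoc, e1]
  -- the class of `s y`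
  have hsd : ∀ y, ∃ m : ℤ, s y = D * ((y : ℕ) : ℤ) + T + D * 3 ^ j * m := by
    intro y
    have h1 : (((s y - (D * ((y : ℕ) : ℤ) + T)) : ℤ) : ZMod (3 ^ (2 * n))) = 0 := by
      rw [Int.cast_sub, hs, ZMod.coe_valMinAbs, ht, sub_self]
    rw [ZMod.intCast_zmod_eq_zero_iff_dvd] at h1
    obtain ⟨m, hm⟩ := h1
    rw [hM] at hm
    exact ⟨m, by linarith⟩
  have hmod : ∀ y, s y % D = T % D := by
    intro y
    obtain ⟨m, hm⟩ := hsd y
    have h1 : s y = T + D * (((y : ℕ) : ℤ) + 3 ^ j * m) := by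
      rw [hm]
      ring
    rw [h1, Int.add_mul_emod_self_left]
  have hkinj : Function.Injective k := by
    intro y y' hyy
    have h1 : s y = s y' := by
      have e1 := Int.mul_ediv_add_emod (s y) D
      have e2 := Int.mul_ediv_add_emod (s y') D
      rw [← e1, ← e2, hmod y, hmod y', ← hk, ← hk, hyy]
    obtain ⟨m, hm⟩ := hsd y
    obtain ⟨m', hm'⟩ := hsd y'
    have h2 : D * (((y : ℕ) : ℤ) - ((y' : ℕ) : ℤ)) = D * (3 ^ j * (m' - m)) := by
      rw [h1] at hm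
      rw [hm] at hm'
      linear_combination hm'
    have h3 : ((y : ℕ) : ℤ) - ((y' : ℕ) : ℤ) = 3 ^ j * (m' - m) :=
      mul_left_cancel₀ hD0.ne' h2
    have hy := y.isLt
    have hy' := y'.isLt
    have hyc : ((y : ℕ) : ℤ) < 3 ^ j := by exact_mod_cast hy
    have hyc' : ((y' : ℕ) : ℤ) < 3 ^ j := by exact_mod_cast hy'
    have h0 : (0 : ℤ) ≤ ((y : ℕ) : ℤ) := Int.natCast_nonneg _
    have h0' : (0 : ℤ) ≤ ((y' : ℕ) : ℤ) := Int.natCast_nonneg _
    have h3j : (0 : ℤ) < 3 ^ j := by positivity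
    have hmm : m' - m = 0 := by
      have hlt : |(3 : ℤ) ^ j * (m' - m)| < 3 ^ j := by
        rw [← h3, abs_lt]
        constructor <;> linarith
      rw [abs_mul, abs_of_pos h3j] at hlt
      have h5 : |m' - m| < 1 := by
        by_contra hcon
        have h6 : 1 ≤ |m' - m| := not_lt.mp hcon
        nlinarith
      have h7 : |m' - m| = 0 := by
        have := abs_nonneg (m' - m)
        omega
      exact abs_eq_zero.mp h7
    rw [hmm, mul_zero] at h3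
    apply Fin.ext
    have : ((y : ℕ) : ℤ) = ((y' : ℕ) : ℤ) := by linarith
    exact_mod_cast this
  -- lower bound for `|s y|`
  have hslow : ∀ y, (D : ℝ) * (((k y).natAbs : ℝ) - 1) ≤ nrm (t y) := by
    intro y
    have e1 := Int.mul_ediv_add_emod (s y) D
    rw [← hk] at e1
    have e2 := Int.emod_nonneg (s y) hD0.ne'
    have e3 := Int.emod_lt_of_pos (s y) hD0
    have h1 : D * (|k y| - 1) ≤ |s y| := by
      rcases le_or_gt 0 (k y) with h | h
      · rw [abs_of_nonneg h]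
        have h2 : s y ≤ |s y| := le_abs_self _
        nlinarith
      · rw [abs_of_neg h]
        have h2 : -s y ≤ |s y| := neg_le_abs _
        nlinarith
    have h2 : nrm (t y) = ((|s y| : ℤ) : ℝ) := by
      unfold nrm
      rw [← hs, Int.cast_abs]
    rw [h2]
    have h3 : (((k y).natAbs : ℕ) : ℝ) = ((|k y| : ℤ) : ℝ) := by
      rw [Nat.cast_natAbs]
    rw [h3]
    exact_mod_cast h1
  -- the block and the shift
  have hblk : ∀ y : Ty, c.ctr y / q < 3 ^ j := by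
    intro y
    rw [Nat.div_lt_iff_lt_mul hq1, mul_comm, hqj]
    exact c.hc y
  obtain ⟨cf, hcf⟩ : ∃ cf : Ty → Fin (3 ^ j), ∀ y, ((cf y : Fin (3 ^ j)) : ℕ) = c.ctr y / q :=
    ⟨fun y => ⟨c.ctr y / q, hblk y⟩, fun y => rfl⟩
  have hcm : ∀ y, c.ctr y = q * ((cf y : Fin (3 ^ j)) : ℕ) + c.ctr y % q := by
    intro y
    rw [hcf y]
    exact (Nat.div_add_mod _ _).symm
  have hu : ∀ y : Ty, um c p y = t (cf y) + (((3 ^ n * ((c.ctr y % q : ℕ) : ℤ) +
      ((c.R y : ℤ) - c.R z₀) * E p.2 : ℤ)) : ZMod (3 ^ (2 * n))) := by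
    intro y
    have h1 : p.1 = (((p.1.val : ℕ) : ℤ) : ZMod (3 ^ (2 * n))) := by
      rw [Int.cast_natCast, ZMod.natCast_val, ZMod.cast_id', id]
    show ((3 ^ n * (c.ctr y : ℤ) + (c.R y : ℤ) * E p.2 : ℤ) : ZMod (3 ^ (2 * n))) + p.1 = _
    rw [ht, ← Int.cast_add]
    conv_lhs => rw [h1]
    rw [← Int.cast_add]
    congr 1
    have h2 : (c.ctr y : ℤ) = (q : ℤ) * (((cf y : Fin (3 ^ j)) : ℕ) : ℤ) + ((c.ctr y % q : ℕ) : ℤ) := by
      exact_mod_cast hcm y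
    rw [hT, hD, h2]
    push_cast
    ring
  obtain ⟨X, hX⟩ : ∃ X : ℝ, X = Real.exp (-(1 / 6)) := ⟨_, rfl⟩
  have hQr : (1 : ℝ) ≤ Q := by exact_mod_cast hQ1
  have hqr : (1 : ℝ) ≤ q := by exact_mod_cast hq1
  have hQqr : (Q : ℝ) ≤ q := by exact_mod_cast hQq
  have hX0 : 0 ≤ X := by
    rw [hX]
    exact (Real.exp_pos _).le
  have hX1 : X < 1 := by
    rw [hX]
    have h1 : Real.exp (-(1 / 6)) < Real.exp 0 := Real.exp_lt_exp.mpr (by norm_num)
    rwa [Real.exp_zero] at h1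
  have hX2 : 1 / (1 - X) ≤ 7 := by
    have h1 : 0 < 1 - X := by linarith
    rw [div_le_iff₀ h1]
    have h2 : 1 / 6 + 1 ≤ Real.exp (1 / 6) := Real.add_one_le_exp _
    have h3 : X * Real.exp (1 / 6) = 1 := by
      rw [hX, ← Real.exp_add, neg_add_cancel, Real.exp_zero]
    have h4 : X * (1 / 6 + 1) ≤ 1 := by
      have h5 := mul_le_mul_of_nonneg_left h2 hX0
      rwa [h3] at h5
    linarith
  have hℓ : (3 : ℝ) ^ (2 * n - κ) = 3 ^ n * Q := by
    rw [hQ]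
    push_cast
    rw [← pow_add]
    congr 1
    omega
  have hDr : (D : ℝ) = 3 ^ n * q := by rw [hD]; push_cast; ring
  have h3nr : (0 : ℝ) < 3 ^ n := by positivity
  have hDr0 : (0 : ℝ) < D := by exact_mod_cast hD0
  -- every term
  obtain ⟨Bd, hBd⟩ : ∃ Bd : Fin (3 ^ j) → ℝ, ∀ x, Bd x =
      (if (k x).natAbs ≤ 2 then (1 : ℝ) else 0) + X ^ (k x).natAbs := ⟨_, fun x => rfl⟩
  have hBd0 : ∀ x, 0 ≤ Bd x := by
    intro x
    rw [hBd]
    have hr0 : 0 ≤ X ^ (k x).natAbs := pow_nonneg hX0 _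
    have : (0 : ℝ) ≤ (if (k x).natAbs ≤ 2 then (1 : ℝ) else 0) := by
      by_cases h : (k x).natAbs ≤ 2
      · rw [if_pos h]
        norm_num
      · rw [if_neg h]
    linarith
  have hterm : ∀ y : Ty, |(c.R y : ℤ) - c.R z₀| ≤ 3 ^ (n - j) →
      chi ((3 : ℝ) ^ (2 * n - κ)) (um c p y) ≤ Bd (cf y) := by
    intro y hR
    rw [hBd]
    have hw1 : chi ((3 : ℝ) ^ (2 * n - κ)) (um c p y) ≤ 1 := by
      unfold chi
      apply Real.exp_le_one_iff.mpr
      have : 0 ≤ nrm (um c p y) / 3 ^ (2 * n - κ) := div_nonneg (abs_nonneg _) (by positivity)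
      linarith
    have hr0 : 0 ≤ X ^ (k (cf y)).natAbs := pow_nonneg hX0 _
    by_cases hkq : (k (cf y)).natAbs ≤ 2
    · rw [if_pos hkq]
      linarith
    · rw [if_neg hkq, zero_add]
      have hkq' : (3 : ℝ) ≤ ((k (cf y)).natAbs : ℝ) := by
        have : 3 ≤ (k (cf y)).natAbs := by omega
        exact_mod_cast this
      have h1 := Pool.Agent.GA.UPP_nrm_add (t (cf y)) (3 ^ n * ((c.ctr y % q : ℕ) : ℤ) +
        ((c.R y : ℤ) - c.R z₀) * E p.2)
      rw [← hu y] at h1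
      have h2 : 2 * |(((3 ^ n * ((c.ctr y % q : ℕ) : ℤ) + ((c.R y : ℤ) - c.R z₀) * E p.2 : ℤ)) : ℝ)| ≤
          3 * (D : ℝ) := by
        rw [← Int.cast_abs]
        have h3 := abs_E_le p.2
        have h4 : 2 * |3 ^ n * ((c.ctr y % q : ℕ) : ℤ) + ((c.R y : ℤ) - c.R z₀) * E p.2| ≤ 3 * D := by
          have h6 : 0 ≤ |E p.2| := abs_nonneg _
          have h7 : 0 ≤ |(c.R y : ℤ) - c.R z₀| := abs_nonneg _
          have h8 : ((c.ctr y % q : ℕ) : ℤ) ≤ q := by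
            exact_mod_cast (Nat.mod_lt _ hq1).le
          have h9 : 0 ≤ ((c.ctr y % q : ℕ) : ℤ) := Int.natCast_nonneg _
          have h10 : |3 ^ n * ((c.ctr y % q : ℕ) : ℤ) + ((c.R y : ℤ) - c.R z₀) * E p.2| ≤
              3 ^ n * ((c.ctr y % q : ℕ) : ℤ) + |(c.R y : ℤ) - c.R z₀| * |E p.2| := by
            refine (abs_add_le _ _).trans ?_
            rw [abs_mul, abs_mul, abs_of_pos h3n, abs_of_nonneg h9]
          have h11 : |(c.R y : ℤ) - c.R z₀| * (2 * |E p.2|) ≤ q * 3 ^ n := by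
            calc |(c.R y : ℤ) - c.R z₀| * (2 * |E p.2|) ≤ |(c.R y : ℤ) - c.R z₀| * (3 ^ n) :=
                mul_le_mul_of_nonneg_left (by linarith) h7
              _ ≤ 3 ^ (n - j) * 3 ^ n := mul_le_mul_of_nonneg_right hR h3n.le
              _ = q * 3 ^ n := by rw [hqz]
          have h12 : 3 ^ n * ((c.ctr y % q : ℕ) : ℤ) ≤ 3 ^ n * q := mul_le_mul_of_nonneg_left h8 h3n.le
          rw [hD]
          nlinarith
        exact_mod_cast h4
      have h3 := hslow (cf y)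
      have h4 : (D : ℝ) * (((k (cf y)).natAbs : ℝ) - 5 / 2) ≤ nrm (um c p y) := by
        linarith
      unfold chi
      rw [hℓ, hX, ← Real.exp_nat_mul]
      apply Real.exp_le_exp.mpr
      have hpos : (0 : ℝ) < 3 ^ n * Q := by positivity
      have h5 : (((k (cf y)).natAbs : ℝ) - 5 / 2) ≤ nrm (um c p y) / (3 ^ n * Q) := by
        rw [le_div_iff₀ hpos]
        refine le_trans ?_ h4
        rw [mul_comm]
        refine mul_le_mul_of_nonneg_right ?_ (by linarith)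
        rw [hDr]
        exact mul_le_mul_of_nonneg_left hQqr h3nr.le
      linarith
  -- the squares
  have h3jr : (0 : ℝ) < 3 ^ (n - j) := by positivity
  have hω : 0 ≤ ω * 3 ^ (n - j) := by
    refine le_trans ?_ (hWin 0 0)
    exact Finset.sum_nonneg fun y _ => mul_nonneg (c.pos y).le (ind_nonneg _)
  have hsum : mj n c.R (wm c κ p) j z₀ ≤ ω * 3 ^ (n - j) * ∑ x, Bd x := by
    have e1 : mj n c.R (wm c κ p) j z₀ ≤ ∑ y : Ty, ∑ x : Fin (3 ^ j),
        Bd x * (c.a y * ind (|(c.ctr y : ℤ) - ((q * (x : ℕ) : ℕ) : ℤ)| ≤ 3 ^ (n - j) ∧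
          |(c.R y : ℤ) - (c.R z₀ : ℕ)| ≤ 3 ^ (n - j))) := by
      refine Finset.sum_le_sum fun y _ => ?_
      have e2 : ∀ x ∈ (univ : Finset (Fin (3 ^ j))), 0 ≤ Bd x *
          (c.a y * ind (|(c.ctr y : ℤ) - ((q * (x : ℕ) : ℕ) : ℤ)| ≤ 3 ^ (n - j) ∧
            |(c.R y : ℤ) - (c.R z₀ : ℕ)| ≤ 3 ^ (n - j))) :=
        fun x _ => mul_nonneg (hBd0 x) (mul_nonneg (c.pos y).le (ind_nonneg _))
      refine le_trans ?_ (Finset.single_le_sum e2 (Finset.mem_univ (cf y)))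
      by_cases hR : |(c.R y : ℤ) - c.R z₀| ≤ 3 ^ (n - j)
      · have hc1 : |(c.ctr y : ℤ) - ((q * ((cf y : Fin (3 ^ j)) : ℕ) : ℕ) : ℤ)| ≤ 3 ^ (n - j) := by
          have h2 : (c.ctr y : ℤ) = ((q * ((cf y : Fin (3 ^ j)) : ℕ) : ℕ) : ℤ) + ((c.ctr y % q : ℕ) : ℤ) := by
            exact_mod_cast hcm y
          have h8 : ((c.ctr y % q : ℕ) : ℤ) ≤ q := by
            exact_mod_cast (Nat.mod_lt _ hq1).le
          have h9 : 0 ≤ ((c.ctr y % q : ℕ) : ℤ) := Int.natCast_nonneg _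
          rw [h2, add_sub_cancel_left, abs_of_nonneg h9, ← hqz]
          exact h8
        rw [ind_of hR, ind_of ⟨hc1, hR⟩, mul_one, mul_one]
        unfold wm
        rw [mul_comm]
        exact mul_le_mul_of_nonneg_right (hterm y hR) (c.pos y).le
      · rw [ind_of_not hR, mul_zero]
        exact e2 (cf y) (Finset.mem_univ _)
    refine e1.trans ?_
    rw [Finset.sum_comm, Finset.mul_sum]
    refine Finset.sum_le_sum fun x _ => ?_
    rw [← Finset.mul_sum, mul_comm (ω * 3 ^ (n - j))]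
    exact mul_le_mul_of_nonneg_left (hWin (q * (x : ℕ)) (c.R z₀)) (hBd0 x)
  have h1 : ∑ y, (if (k y).natAbs ≤ 2 then (1 : ℝ) else 0) ≤ 2 * (2 : ℕ) + 1 := by
    have e : ∑ y, (if (k y).natAbs ≤ 2 then (1 : ℝ) else 0) =
        ∑ z ∈ univ.image k, (if z.natAbs ≤ 2 then (1 : ℝ) else 0) := by
      rw [Finset.sum_image fun a _ b _ h => hkinj h]
    rw [e, Finset.sum_boole]
    exact Pool.Agent.GA.UPP_card _ 2
  have h2 : ∑ y, X ^ (k y).natAbs ≤ 2 * (1 / (1 - X)) := by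
    have e : ∑ y, X ^ (k y).natAbs = ∑ z ∈ univ.image k, X ^ z.natAbs := by
      rw [Finset.sum_image fun a _ b _ h => hkinj h]
    rw [e]
    exact Pool.Agent.GA.UPP_geo X hX0 hX1 _
  have hB : ∑ x, Bd x ≤ 40 := by
    have e : ∑ x, Bd x = ∑ y, (if (k y).natAbs ≤ 2 then (1 : ℝ) else 0) +
        ∑ y, X ^ (k y).natAbs := by
      rw [← Finset.sum_add_distrib]
      exact Finset.sum_congr rfl fun x _ => hBd x
    rw [e]
    push_cast at h1
    linarith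
  calc mj n c.R (wm c κ p) j z₀ ≤ ω * 3 ^ (n - j) * ∑ x, Bd x := hsum
    _ ≤ ω * 3 ^ (n - j) * 40 := mul_le_mul_of_nonneg_left hB hω
    _ = 40 * (ω * 3 ^ (n - j)) := by ring

end

end Pool.Agent.ZP
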