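import Pool.Agent.helper4.GA.Main
import Pool.Agent.helper99.ZR.FLP
import Pool.Agent.helper99.ZR.ST1
import Pool.Agent.helper99.ZR.STP
import Pool.Agent.helper99.ZR.ON1
import Pool.Agent.helper99.ZR.ONE
import Pool.Agent.helper99.ZR.TW1
import Pool.Agent.helper99.ZR.SMU
import Pool.Agent.helper35.ZR.TOT
import Pool.Agent.helper87.ZR.LIG
import Pool.Agent.helper92.ZR.LW1
import Pool.Agent.helper71.ZR.LW2
import Pool.Agent.helper44.ZR.NUM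
import Pool.Agent.helper99.ZR.SP3
import Pool.Agent.helper50.ZR.DI2
import Pool.Agent.helper99.ZP.UPP
import Pool.Agent.helper99.ZP.TWO
import Pool.Agent.helper99.ZP.MPP
import Pool.Agent.helper99.ZP.DSM
import Pool.Agent.helper99.ZP.L1W
import Pool.Agent.helper99.ZP.KST
import Pool.Agent.helper99.ZP.TEL
import Pool.Agent.helper84.ZP.FR2
import Pool.Agent.helper99.ZP.IN2
import Pool.Agent.helper48.ZP.GA2
import Pool.Agent.helper76.ZP.DJ1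
import Pool.Agent.helper99.ZP.FN2
import Pool.Agent.helper5.ZP.FI2
import Pool.Agent.helper39.ZP.FUB
import Pool.Agent.helper5.ZP.DIM

set_option autoImplicit false

/-!
# MP_3c0a64_an: assembly of the projects zr and zp

The rows of project ga (helper4), zr and zp are put together.
-/

namespace Pool.Agent.ZP

open Pool.Agent

theorem fFLP : ZR.FLP_stmt := ZR.FLP
theorem fST1 : ZR.ST1_stmt := ZR.ST1 GA.fCHR GA.fCHI GA.fFLP fFLP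
theorem fSTP : ZR.STP_stmt := ZR.STP GA.fCHI GA.fFLP GA.fALG GA.fPOT fST1
theorem fON1 : ZR.ON1_stmt := ZR.ON1 GA.fCHI fSTP
theorem fONE : ZR.ONE_stmt := ZR.ONE GA.fCHI GA.fPOT fON1
theorem fTW1 : ZR.TW1_stmt := ZR.TW1 GA.fCHI GA.fCMB GA.fBAL GA.fPT1
theorem fUPP : ZP.UPP_stmt := ZP.UPP
theorem fTWO : ZP.TWO_stmt := ZP.TWO GA.fCHI GA.fCV1 GA.fCV2 GA.fLGW fUPP GA.fAVG fTW1
theorem fMPP : ZP.MPP_stmt := ZP.MPP GA.fCHI GA.fPOT fONE GA.fPT1 fTWO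
theorem fSMU : ZR.SMU_stmt := ZR.SMU GA.fMUL GA.fNRM
theorem fDSM : ZP.DSM_stmt := ZP.DSM GA.fCHR GA.fCHI fMPP GA.fPSV fSMU
theorem fTOT : ZR.TOT_stmt := ZR.TOT GA.fCHI
theorem fLW1 : ZR.LW1_stmt := ZR.LW1 GA.fCHI
theorem fLW2 : ZR.LW2_stmt := ZR.LW2 fTOT fLW1
theorem fL1W : ZP.L1W_stmt := ZP.L1W fDSM fTOT ZR.LIG fLW2
theorem fKST : ZP.KST_stmt := ZP.KST fL1W ZR.NUM GA.fFP1 GA.fFP2
theorem fTEL : ZP.TEL_stmt := ZP.TEL fKST ZR.SP3 fTOT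
theorem fFN2 : ZP.FN2_stmt := ZP.FN2 fTEL ZP.IN2 (ZP.DJ1 ZP.FR2) ZR.DI2
theorem fFI2 : ZP.FI2_stmt := ZP.FI2 fFN2 ZP.GA2

end Pool.Agent.ZP
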