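import Pool.Agent.helper99.ZP.SpecO

/-! # zp: row OPC -/

set_option autoImplicit false

open scoped ENNReal

namespace Pool.Agent.ZPO

theorem OPC_iso : Isometry (fun x : ℝ => ((x, (1 : ℝ)) : ℝ × ℝ)) := by
  intro x y
  rw [Prod.edist_eq]
  simp

theorem OPC (hOPA : OPA_stmt) (hOPB : OPB_stmt) : OPC_stmt := by
  refine ⟨⋃ m : ℕ, Sc m, ?_, ?_⟩
  · rw [MeasureTheory.measure_iUnion_null_iff]
    exact hOPB
  · have h1 : ∀ m : ℕ, 1 ≤ m → ENNReal.ofReal ((m : ℝ) / (m + 2)) ≤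
        dimH {p : ℝ × ℝ | 0 < p.2 ∧ ∀ c ∈ cantorSet, p.1 + p.2 * (c - 1 / 2) ∈ ⋃ m : ℕ, Sc m} := by
      intro m hm
      refine (hOPA m hm).trans ?_
      rw [← OPC_iso.dimH_image (Sm m)]
      refine dimH_mono ?_
      rintro _ ⟨x, hx, rfl⟩
      refine ⟨one_pos, fun c hc => Set.mem_iUnion.2 ⟨m, x, hx, c, hc, ?_⟩⟩
      simp only
      ring
    have h2 : Filter.Tendsto (fun m : ℕ => ENNReal.ofReal ((m : ℝ) / (m + 2))) Filter.atTop
        (nhds (ENNReal.ofReal 1)) := by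
      refine ENNReal.tendsto_ofReal ?_
      exact tendsto_natCast_div_add_atTop 2
    rw [ENNReal.ofReal_one] at h2
    refine le_of_tendsto h2 ?_
    filter_upwards [Filter.eventually_ge_atTop 1] with m hm
    exact h1 m hm

end Pool.Agent.ZPO
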