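import Pool.Agent.helper99.ZR.Spec

/-!
# Project zp (MP_3c0a64_an): for a null set `B` the set of the pairs `(x, r)` with `x + r (K - 1/2) ⊆ B` has dimension at most one

THEOREM Z2 (contains THEOREM Z of project zr): there is `C > 0` such that for every Lebesgue null set `B` the set `P = {(x, r) | 0 < r, x + r (K - 1/2) ⊆ B}` in the plane has measure zero for the gauge
`t exp (-C (log log (1/t))^3)`, hence Hausdorff dimension at most one. (The `x`-axis can not be improved: dimension one is possible.) The fibre statement of project zr follows (row FUB).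

THE CHANGE against project zr: the window condition `Win` (mass over EVERY centre) is only used in the row UPP, and there it can be replaced by the Frostman condition `Wip` for the SQUARES of side `3^(-j)` in the plane
(centre, radius): `mass ≤ ω 3^(n-j)`. The rows TWO MPP DSM L1W KST TEL of zr pass `Win` on without using it; their proofs are copied literally (done by helper99).

Rules: file `Pool/Agent/<seat>/ZP/XX.lean`, `import Pool.Agent.helper99.ZP.Spec`, `set_option autoImplicit false`, `namespace Pool.Agent.ZP`, the open lines of this file, `theorem XX (h : YY_stmt) ... : XX_stmt`; hypotheses: the rows named in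
the docstring. You may also import the proved files of zr (`Pool/Agent/*/ZR/XX.lean`) and use their auxiliary theorems. Auxiliary lemmas are prefixed `XX_`. No sorry, no double quotes, no `congr!`, no `convert`. A wrong or awkward statement: tell helper99 at once.
-/

set_option autoImplicit false
set_option linter.unusedVariables false

namespace Pool.Agent.ZP

open Finset
open Pool.Agent.helper32.Cant
open Pool.Agent.GA (nrm chi ch St sg flp Psi rc ph pot rpot far nc gf ncs gfs good mj om pick pat et kap mult)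
open Pool.Agent.ZR
open scoped ENNReal

noncomputable section

section
variable {n : ℕ} {X : Type} [Fintype X]

/-- the squares of side `3^(-j)` (twice as large) have mass at most `ω * 3^(n-j)` -/
def Wip (c : Fam n X) (j : ℕ) (ω : ℝ) : Prop :=
  ∀ x r : ℕ, ∑ z, c.a z * ind (|(c.ctr z : ℤ) - x| ≤ 3 ^ (n - j) ∧ |(c.R z : ℤ) - r| ≤ 3 ^ (n - j)) ≤
    ω * 3 ^ (n - j)

end

/-- the costs of the triadic squares -/
def pst (C : ℝ) (j : ℕ) : ℝ := psi C j / 3 ^ j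

/-- the costs as extended numbers -/
def psF (C : ℝ) (j : ℕ) : ℝ≥0∞ := ENNReal.ofReal (pst C j)

/-- the gauge `t exp (-C (log log (1/t))^3)` -/
def gp (C : ℝ) (d : ℝ≥0∞) : ℝ≥0∞ :=
  ENNReal.ofReal (d.toReal * Real.exp (-(C * (Real.log (Real.log (1 / d.toReal))) ^ 3)))

/-- the squares `(j, p, q) = {(u, s) | ⌊3^j u⌋ = p, ⌊3^j s⌋ = q}` of `A` cover `E` -/
def Cov2 (A : Set (ℕ × ℤ × ℤ)) (E : Set (ℝ × ℝ)) : Prop :=
  ∀ s ∈ E, ∃ c ∈ A, ⌊(3 : ℝ) ^ c.1 * s.1⌋ = c.2.1 ∧ ⌊(3 : ℝ) ^ c.1 * s.2⌋ = c.2.2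

/-- the total cost of the squares of `A` -/
def cst2 (ψ : ℕ → ℝ≥0∞) (A : Set (ℕ × ℤ × ℤ)) : ℝ≥0∞ := ∑' c : A, ψ (c : ℕ × ℤ × ℤ).1

/-- the triadic content -/
def cont2 (ψ : ℕ → ℝ≥0∞) (E : Set (ℝ × ℝ)) : ℝ≥0∞ := ⨅ (A : Set (ℕ × ℤ × ℤ)) (_ : Cov2 A E), cst2 ψ A

/-- the pairs `(u, s)`, `u, s ∈ [0, 1)`, for which the `δ`-neighbourhood of `o + λ u + λ (1 + s) (K - 1/2)` is contained in `U` -/
def Ps (U : Set ℝ) (o lam δ : ℝ) : Set (ℝ × ℝ) := {p | 0 ≤ p.1 ∧ p.1 < 1 ∧ p.2 ∈ Es U lam δ (o + lam * p.1)}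

/-- the pairs with `o + λ u + λ (1 + s) (K - 1/2) ⊆ B` -/
def Pb (B : Set ℝ) (o lam : ℝ) : Set (ℝ × ℝ) :=
  {p | 0 ≤ p.1 ∧ p.1 < 1 ∧ 0 ≤ p.2 ∧ p.2 < 1 ∧ ∀ c ∈ cantorSet, (o + lam * p.1) + lam * (1 + p.2) * (c - 1 / 2) ∈ B}

/-! ## Group A: the rows of zr with `Wip` -/

/-- UPP (medium; adapt `Pool/Agent/helper9/ZR/UPP.lean` and `Pool/Agent/helper71/GA/UPP.lean`). Let `q = 3^(n-j)`, `Q = 3^(n-κ) ≤ q`. Group the `y` by the block `b = ctr y / q < 3^j` of their centre. For the `y` of block `b` with `|R_y - R_z| ≤ q`: `um c p y = t_b + s`,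
`t_b = 3^n (q b) + R_z E(p.2) + p.1`, `|s| ≤ 3^n (ctr y - q b) + |R_y - R_z| |E| ≤ (3/2) 3^n q`. The points `t_b`, `b < 3^j`, have distances `3^n q = 3^(2n-j)` modulo `3^(2n)`: with `s_b` = the absolutely smallest residue of `t_b` and `k_b = s_b / (3^n q)` (floor), `b ↦ k_b` is injective and
`|s_b| ≥ 3^n q (|k_b| - 1)`. So `nrm (um c p y) ≥ 3^n q (|k_b| - 5/2)` (`GA.UPP_nrm_add`) and, as `ℓ = 3^n Q ≤ 3^n q`,
`chi ℓ (um c p y) ≤ D_b := (if |k_b| ≤ 2 then 1 else 0) + X^|k_b|`, `X = exp (-1/6)` (for `|k_b| ≥ 3`: `|k_b| - 5/2 ≥ |k_b|/6`). `∑_b D_b ≤ 5 + 2/(1 - X) ≤ 5 + 14 ≤ 40` (`GA.UPP_card`, `GA.UPP_geo`, `1/(1 - X) ≤ 7` as in the old proof). The mass of the `y` of block `b` with `|R_y - R_z| ≤ q` is at most `ω q` (`Wip` with `x = q b`, `r = R z`). -/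
def UPP_stmt : Prop := ∀ (n : ℕ) (X : Type) [Fintype X] (c : Fam n X) (κ j : ℕ) (ω : ℝ) (p : St n) (z : X),
  Wip c j ω → j ≤ κ → κ ≤ n → mj n c.R (wm c κ p) j z ≤ 40 * (ω * 3 ^ (n - j))

/-- TWO, from `GA.CHI_stmt`, `GA.CV1_stmt`, `GA.CV2_stmt`, `GA.LGW_stmt`, `UPP_stmt`, `GA.AVG_stmt`, `ZR.TW1_stmt` (copied). -/
def TWO_stmt : Prop := ∀ (n h : ℕ) (X : Type) [Fintype X] (c : Fam n X) (κ g T : ℕ) (ζ η y ω U K : ℝ) (p : St n),
  κ ≤ n → κ ≤ h → 4 ≤ g → 2 * g * T + g ≤ κ → κ ≤ 2 * g * T + 3 * g → 2 ≤ K →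
  1 / 8 ≤ ζ → ζ ≤ 3 / 8 → 0 < η → η ≤ 1 → Wip c (2 * g * T + 2) ω → hm c κ y ω p →
  ∑ o : Fin (T + 1) → Fin (2 * g), ∑ sh ∈ range (3 ^ n),
      rpot n sh ζ η c.R (wm c κ p) (pat g κ o) ≤
    (2 * g : ℝ) ^ (T + 1) * 3 ^ n * (NM c κ p * (η + et h g y U K))

/-- MPP (copied). -/
def MPP_stmt : Prop := ∀ (n h : ℕ) (X : Type) [Fintype X] (c : Fam n X) (κ g T x : ℕ) (y ω U K : ℝ),
  1 ≤ h → κ ≤ h → κ ≤ n → 4 ≤ g → 2 * g * T + g ≤ κ → κ ≤ 2 * g * T + 3 * g → 2 ≤ K →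
  Wip c (2 * g * T + 2) ω →
  3 * h * 3 ^ κ ≤ x → 9 * x ≤ 3 ^ (g + κ) → 8 * x ≤ 3 ^ n →
  ∑ p, ind (hm c κ y ω p) * (‖VM c κ (x : ZMod (3 ^ (2 * n))) p univ‖ ^ 2 / NM c κ p) ≤
    18 * (8 * (h : ℝ) ^ 2 * 9 ^ κ / (x : ℝ) ^ 2 + et h g y U K) * ∑ p, NM c κ p

/-- DSM (copied). -/
def DSM_stmt : Prop := ∀ (n h : ℕ) (X : Type) [Fintype X] (c : Fam n X) (κ k g T x₁ : ℕ) (y ω U K : ℝ),
  1 ≤ h → κ ≤ h → κ ≤ k → k + 1 ≤ n → 4 ≤ g → 2 * g * T + g ≤ κ → κ ≤ 2 * g * T + 3 * g → 2 ≤ K →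
  1 ≤ x₁ → 9 * x₁ ≤ 3 ^ (g + κ) → 8 * x₁ ≤ 3 ^ n → Wip c (2 * g * T + 2) ω →
  ∑ p, ind (hm c κ y ω p) * ((∑ v, DM c κ k p v ^ 2) / NM c κ p) ≤
    ((3 : ℝ) ^ (2 * n - (k + 1))) ^ 2 * 3 ^ κ / 3 ^ (2 * n)
      * kap h (k - κ) (x₁ / 3 ^ κ) (et h g y U K) * ∑ p, NM c κ p

/-- L1W (copied). -/
def L1W_stmt : Prop := ∀ (n h : ℕ) (X : Type) [Fintype X] (c : Fam n X) (κ k g T x₁ : ℕ) (y ω U K : ℝ),
  1 ≤ h → κ ≤ h → κ ≤ k → k + 1 ≤ n → 4 ≤ g → 2 * g * T + g ≤ κ → κ ≤ 2 * g * T + 3 * g → 2 ≤ K →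
  1 ≤ x₁ → 9 * x₁ ≤ 3 ^ (g + κ) → 8 * x₁ ≤ 3 ^ n → 0 ≤ ω → Wip c (2 * g * T + 2) ω →
  TC c k ≤ (13 * √(kap h (k - κ) (x₁ / 3 ^ κ) (et h g y U K)) + 8 / 3 ^ (k + 1 - κ)) * (2 ^ n * (3 ^ (2 * n - (k + 1)) * Wt c))
    + 6 * (3 ^ (2 * n - (k + 1)) * (2 ^ n * (Real.exp y * (ω * 3 ^ n))))

/-- KST (copied). -/
def KST_stmt : Prop := ∀ σ M : ℝ, 0 < σ → 0 < M → ∃ k₀ : ℕ, ∀ k ≥ k₀, ∀ n : ℕ, k + 61 * Nat.clog 3 k ≤ n →
  ∀ (X : Type) [Fintype X] (c : Fam n X), σ * 3 ^ n ≤ Wt c →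
  (∀ j ≤ n, Wip c j (M * psi (10 ^ 14) j)) →
  TC c k ≤ 1 / (k : ℝ) ^ 2 * (2 ^ n * (3 ^ (2 * n - (k + 1)) * Wt c))

/-- TEL (copied). -/
def TEL_stmt : Prop := ∀ σ M : ℝ, 0 < σ → 0 < M → ∃ k₀ : ℕ, ∀ n k₁ : ℕ, k₀ ≤ k₁ → k₁ + 61 * Nat.clog 3 k₁ ≤ n →
  ∀ (X : Type) [Fintype X] (c : Fam n X), σ * 3 ^ n ≤ Wt c →
  (∀ j ≤ n, Wip c j (M * psi (10 ^ 14) j)) → ∀ G : Finset (ZMod (3 ^ (2 * n))),
  (∀ t, (∃ (w : Word n) (z : X), (um c (0, w) z - t).val < 3 ^ (2 * n - k₁)) → t ∈ G) →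
  (3 : ℝ) ^ (2 * n - k₀) / 2 ≤ G.card

/-! ## Group B: contents in the plane and reduction -/

/-- FR2 (medium): the discrete Frostman lemma for squares. Adapt `Pool/Agent/helper84/ZR/FRO.lean` with the nine children `(d, e)`, `d, e < 3` (the parts `E_(d,e) = {(p, q) | p, q < 3^n, (p + d 3^n, q + e 3^n) ∈ E}`), or deduce it from `ZR.FRO_stmt` for `2n` by interleaving the digits:
`I(p, q) = ∑_i (3 p_i + q_i) 9^i`, `I(p, q) / 9^m = I(p / 3^m, q / 3^m)`, `I` injective, with the costs `ψ' i = ψ (i / 2)`; a cell `(i, c)` is replaced by the square of level `i / 2` with the code `c / 3^(i % 2)`. -/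
def FR2_stmt : Prop := ∀ (n : ℕ) (ψ : ℕ → ℝ), (∀ i, 0 < ψ i) → ∀ E : Finset (ℕ × ℕ), (∀ q ∈ E, q.1 < 3 ^ n ∧ q.2 < 3 ^ n) →
  ∃ (a : ℕ × ℕ → ℝ) (A : Finset (ℕ × ℕ × ℕ)), (∀ q, 0 ≤ a q) ∧ (∀ q, q ∉ E → a q = 0) ∧
    (∀ i ≤ n, ∀ c d, ∑ q ∈ E with (q.1 / 3 ^ (n - i) = c ∧ q.2 / 3 ^ (n - i) = d), a q ≤ ψ i) ∧ (∀ s ∈ A, s.1 ≤ n) ∧
    (∀ q ∈ E, ∃ s ∈ A, q.1 / 3 ^ (n - s.1) = s.2.1 ∧ q.2 / 3 ^ (n - s.1) = s.2.2) ∧ ∑ s ∈ A, ψ s.1 ≤ ∑ q ∈ E, a q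

/-- IN2 (short-medium): the increasing sets lemma, literally as `Pool/Agent/helper99/ZR/INC.lean` with cells in `ℕ × ℤ × ℤ`. -/
def IN2_stmt : Prop := ∀ (ψ : ℕ → ℝ≥0∞) (F : ℕ → Set (ℝ × ℝ)) (s : ℝ≥0∞), (∀ i, F i ⊆ F (i + 1)) →
  (∀ i, cont2 ψ (F i) ≤ s) → cont2 ψ (⋃ i, F i) ≤ s

/-- GA2 (medium): content zero implies measure zero, as `Pool/Agent/helper68/ZR/GAU.lean`: the images `[o + lam p/3^j, o + lam (p+1)/3^j) × [lam (1 + q/3^j), lam (1 + (q+1)/3^j))` of the squares have diameter (sup metric of `ℝ × ℝ`) exactly `lam/3^j` (`Prod` diameter; a bound from both sides, or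
monotonicity of the gauge, is needed: the diameter of the product is the maximum), and `gp C (lam/3^j) ≤ psF C₀ j` for large `j`: `log lam - C (log (j log 3 - log lam))^3 + C₀ (log j)^3 ≤ 0` as `C₀ < C`. -/
def GA2_stmt : Prop := ∀ (C₀ C o lam : ℝ), 0 < C₀ → C₀ < C → 0 < lam → ∀ A : Set (ℝ × ℝ),
  cont2 (psF C₀) {p | (o + lam * p.1, lam * (1 + p.2)) ∈ A} = 0 →
  MeasureTheory.Measure.mkMetric (gp C) A = 0

/-- DJ1 (medium-long), from FR2: discretisation (compare `ZR.DI1_stmt` and its proof by helper20; this one is a little simpler: only one set). Let `Q` be the set of the pairs `(p, q)`, `p, q < 3^n`, such that some `(u, s) ∈ Ps U o lam δ` has `⌊3^n u⌋ = p`, `⌊3^n s⌋ = q`; FR2 (`ψ = pst C₀`): `a`, `A`.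
`A` (with components in `ℤ`) covers `Ps U o lam δ` (`⌊3^j u⌋ = ⌊3^n u⌋ / 3^(n-j)`), so `s₀ < cont2 ≤ cst2 A = ∑ ψ ≤ ∑ a`. `X` = the subtype of the `(p, q) ∈ Fin (3^n) × Fin (3^n)` with `(p, q) ∈ Q` and `a (p, q) > 0`; `ctr = p`, `R = 3^n + q`, weights `a (p, q) * 3^n`. `Wt = 3^n ∑ a ≥ s₀ 3^n`. `Wip`: the pairs with
`|ctr - x| ≤ 3^(n-j)`, `|R - r| ≤ 3^(n-j)` are in at most `3 * 3` squares of level `j` (`ctr / 3^(n-j)` and `(R - 3^n) / 3^(n-j)` take at most three values each), each has mass `≤ 3^n * pst C₀ j = 3^(n-j) psi C₀ j`. -/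
def DJ1_stmt : Prop := ∀ (C₀ : ℝ), 0 < C₀ → ∀ (U : Set ℝ) (o lam δ s₀ : ℝ), 0 < lam → 0 < s₀ →
  ENNReal.ofReal s₀ < cont2 (psF C₀) (Ps U o lam δ) → ∀ n : ℕ,
  ∃ (X : Type) (_ : Fintype X) (c : Fam n X), s₀ * 3 ^ n ≤ Wt c ∧
    (∀ j ≤ n, Wip c j (9 * psi C₀ j)) ∧
    ∀ z : X, ∃ x : ℝ, ∃ s ∈ Es U lam δ x, |x - (o + lam * (c.ctr z / 3 ^ n))| ≤ lam / 3 ^ n ∧
      |(1 + s) - (c.R z : ℝ) / 3 ^ n| ≤ 1 / 3 ^ n

/-- FN2 (short-medium), from TEL, IN2, DJ1, `ZR.DI2_stmt`: one piece; as `Pool/Agent/helper99/ZR/FN1.lean`, but simpler. Suppose the content is not zero, so `> s₀ > 0`. TEL with `σ = s₀`, `M = 9`: `k₀`. `U ⊇ B` open with `volume U < lam/(4 * 3^k₀)`. `Ps U o lam (1/(i+1))` increases with `i`, the union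
contains `Pb B o lam`: by IN2 `cont2 (Ps U o lam (1/(i+1))) > s₀` for some `i`. DJ1, DI2, TEL: `lam/(2 * 3^k₀) ≤ volume U`. -/
def FN2_stmt : Prop := ∀ B : Set ℝ, MeasureTheory.volume B = 0 → ∀ (o lam : ℝ), 0 < lam →
  cont2 (psF (10 ^ 14)) (Pb B o lam) = 0

/-- FI2 (short-medium), from FN2, GA2 (compare `Pool/Agent/helper5/ZR/FIN.lean`): countable union over `l m : ℤ`, `lam = 2^l`, `o = m 2^l`, `C = 2 * 10^14`. -/
def FI2_stmt : Prop := ∀ B : Set ℝ, MeasureTheory.volume B = 0 →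
  MeasureTheory.Measure.mkMetric (gp (2 * 10 ^ 14)) {p : ℝ × ℝ | 0 < p.2 ∧ ∀ c ∈ cantorSet, p.1 + p.2 * (c - 1 / 2) ∈ B} = 0

/-- FUB (medium): almost every fibre. `mkMetric_apply`: for every `n : ℕ` there is a cover `t_i` of `P` with `diam t_i ≤ 1/n` and `∑ gp C (diam t_i) ≤ 4^(-n)` (sum over the non-empty `t_i`). For `t_i` non-empty of finite diameter `d_i` the first projection is contained in a closed interval `I_i` of length `2 d_i`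
(or `d_i`: `[inf, sup]`); `f_n(x) = ∑_i gz C (d_i) 1_(x ∈ I_i)` is measurable with integral `≤ 2 ∑ d_i gz C (d_i) = 2 ∑ gp C (d_i) ≤ 2 * 4^(-n)` (Tonelli: `lintegral_tsum`), so `∑_n 2^n f_n(x) < ∞` for almost every `x`, and `f_n(x) → 0`. The fibres `{r | (x, r) ∈ t_i}` have diameter `≤ d_i`, but `gz C` must be
evaluated at THEIR diameter: cover the fibre of `t_i` by a closed interval of length exactly `d_i` (it is contained in `[y, y + d_i]`), for `x ∈ I_i`. If `d_i = 0` then `gp = 0`, `I_i` is a point: null set, exclude these countably many `x` (`gz C 0 = 1` in Lean!). So `mkMetric (gz C)` of the fibre is `≤ liminf f_n(x) = 0`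
(`MeasureTheory.Measure.mkMetric_le_liminf_tsum` as in helper68/ZR/GAU, with the subtype of the `i` with `t_i` non-empty and `x ∈ I_i` as index type, because `gz C 0 = 1`). -/
def FUB_stmt : Prop := ∀ (C : ℝ) (P : Set (ℝ × ℝ)), MeasureTheory.Measure.mkMetric (gp C) P = 0 →
  ∀ᵐ x : ℝ, MeasureTheory.Measure.mkMetric (gz C) {r | (x, r) ∈ P} = 0

/-- DIM (short-medium): `C (log y)^3 ≤ s y` for large `y` (`isLittleO_pow_log_id_atTop`), so `t^s ≤ exp (-C (log log (1/t))^3)` for small `t > 0`; `Measure.mkMetric_mono` and `hausdorffMeasure_of_lt_dimH`. Second part: the same with the exponent `1 + s`. -/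
def DIM_stmt : Prop := ∀ C : ℝ, 0 < C →
  (∀ E : Set ℝ, MeasureTheory.Measure.mkMetric (gz C) E = 0 → dimH E = 0) ∧
  ∀ P : Set (ℝ × ℝ), MeasureTheory.Measure.mkMetric (gp C) P = 0 → dimH P ≤ 1

end

end Pool.Agent.ZP
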