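import Mathlib

/-!
# Project zp (MP_3c0a64_an), block O: the bound `dim P ≤ 1` is optimal

There is a null set `B` such that the pairs `(x, r)` with `x + r (K - 1/2) ⊆ B` have dimension (at least) one. Only Mathlib is needed.

Rules: file `Pool/Agent/<seat>/ZP/XX.lean`, `import Pool.Agent.helper99.ZP.SpecO`, `set_option autoImplicit false`, `namespace Pool.Agent.ZPO`, `theorem XX (h : YY_stmt) ... : XX_stmt`. Auxiliary lemmas are prefixed `XX_`. No sorry, no double quotes, no `congr!`, no `convert`.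
-/

set_option autoImplicit false
set_option linter.unusedVariables false

namespace Pool.Agent.ZPO

open scoped ENNReal

noncomputable section

/-- the number with the blocks `00 d_i` (each `d_i` has `m` triadic digits) -/
def gm {m : ℕ} (d : ℕ → Fin (3 ^ m)) : ℝ := ∑' i, (d i : ℝ) * (((3 : ℝ) ^ (m + 2)) ^ (i + 1))⁻¹

/-- the numbers of `[0, 1)` whose triadic digits at the places `(m + 2) i + 1`, `(m + 2) i + 2` are zero -/
def Sm (m : ℕ) : Set ℝ := Set.range (gm (m := m))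

/-- the sum with the centred Cantor set -/
def Sc (m : ℕ) : Set ℝ := {y | ∃ x ∈ Sm m, ∃ c ∈ cantorSet, y = x + (c - 1 / 2)}

/-- OPA (medium). `b = 3^(m+2)`. If `d`, `e` agree before `i` and `d i ≠ e i` then `|gm d - gm e| ≥ b^(-(i+1)) (1 - ∑_(l ≥ 1) (3^m - 1) b^(-l)) ≥ b^(-(i+1)) (1 - (3^m - 1)/(b - 1)) ≥ b^(-(i+1))/2`, so `gm` is injective, and `|ofDigits d - ofDigits e| ≤ (3^m)^(-i)`
(`Real.abs_ofDigits_sub_ofDigits_le`). With `r = m/(m+2)`: `(3^m)^(-i) = 3^m (b^(-(i+1)))^r ≤ 2 * 3^m |gm d - gm e|^r`. So the map `gm d ↦ Real.ofDigits d` (choose the sequence of `x`, it is unique) is Hölder with exponent `r` on `Sm m`, its image contains `[0, 1)` (`Real.ofDigits_digits`, base `3^m ≥ 3`), so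
`1 = dimH [0,1) ≤ dimH (Sm m) / r` (`HolderOnWith.dimH_image_le`, `Real.dimH_of_nonempty_interior`). -/
def OPA_stmt : Prop := ∀ m : ℕ, 1 ≤ m → ENNReal.ofReal ((m : ℝ) / (m + 2)) ≤ dimH (Sm m)

/-- OPB (medium). `b = 3^(m+2)`. (1) For `x ∈ Sm m`, `i : ℕ`: `b^i x ∈ ℤ + [0, 1/9)` (the tail: `gm` of the shifted sequence, `∑ (3^m - 1) b^(-(l+1)) = (3^m - 1)/(b - 1) < 1/9`). (2) For `c ∈ cantorSet`: `b^i c ∈ ℤ + cantorSet` (`3 c` or `3 c - 2` is in `cantorSet`: `cantorSet_eq_union_halves`) and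
`cantorSet ⊆ [0, 1/9] ∪ [2/9, 1/3] ∪ [2/3, 7/9] ∪ [8/9, 1]`. (3) So `z = x + c` satisfies `Int.fract (b^i z) ∉ [4/9, 6/9)` for all `i`; let `N` be the (measurable) set of the `z` with this property. It is invariant under `z ↦ z + 1`, so `volume N = 0` follows from `v = volume (N ∩ [0, 1)) = 0`: for `q < b` the part of `N` in
`[q/b, (q+1)/b)` is empty if `4 * 3^m ≤ q < 6 * 3^m` and has measure `≤ v/b` otherwise (`z ∈ N` implies `b z - q ∈ N`), so `v ≤ (b - 2 * 3^m) v/b = (7/9) v`. (4) `Sc m` is contained in the translate of `N` by `-1/2`. -/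
def OPB_stmt : Prop := ∀ m : ℕ, MeasureTheory.volume (Sc m) = 0

/-- OPC (short-medium), from OPA, OPB. `B = ⋃ (m ≥ 1) Sc m`; `Sm m × {1}` is contained in the set (`x + 1 * (c - 1/2)`), and `x ↦ (x, 1)` is an isometry (`Isometry.dimH_image`). `m/(m+2) → 1`. -/
def OPC_stmt : Prop := ∃ B : Set ℝ, MeasureTheory.volume B = 0 ∧
  1 ≤ dimH {p : ℝ × ℝ | 0 < p.2 ∧ ∀ c ∈ cantorSet, p.1 + p.2 * (c - 1 / 2) ∈ B}

end

end Pool.Agent.ZPO
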